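import Mathlib

/-!
# Factorisation in a closed ideal with two-sided approximate smoothing

Abstract Banach algebra part: a Cohen type factorisation, an approximation correction and the
decomposition of the ideal into a left and a right ideal.
-/

set_option autoImplicit false
set_option linter.unusedSectionVars false
set_option linter.unusedVariables false

open Filter Topology

namespace Pool.Agent.Y74.CI

theorem exists_seq_step {X : Type*} (P : ℕ → X → Prop) (Q : ℕ → X → X → Prop) (x₀ : X)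
    (h0 : P 0 x₀) (hs : ∀ n x, P n x → ∃ y, P (n + 1) y ∧ Q n x y) :
    ∃ s : ℕ → X, s 0 = x₀ ∧ ∀ n, P n (s n) ∧ Q n (s n) (s (n + 1)) := by
  classical
  choose! nx h1 h2 using hs
  let s : ℕ → X := fun n => Nat.rec x₀ (fun n x => nx n x) n
  have hP : ∀ n, P n (s n) := by
    intro n
    induction n with
    | zero => exact h0
    | succ n ih => exact h1 n _ ih
  exact ⟨s, rfl, fun n => ⟨hP n, h2 n _ (hP n)⟩⟩

section

variable {A : Type*} [NormedRing A] [NormedAlgebra ℂ A] [CompleteSpace A]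

/-- one step of the Cohen factorisation -/
theorem cohen_step (g C : ℝ) (hg0 : 0 < g) (hg1 : g < 1) (hgC : g * C < 1 - g) (hC : 0 ≤ C)
    (lam : ℕ → A) (hb : ∀ l, ‖lam l‖ ≤ C) (f c : A) (t : ℂ)
    (hf : Tendsto (fun l => f * lam l) atTop (𝓝 f))
    (hc : Tendsto (fun l => c * lam l) atTop (𝓝 c))
    (ha : IsUnit (t • (1 : A) + c)) :
    (∀ᶠ l in atTop, IsUnit (t • (((1 - g : ℝ) : ℂ) • (1 : A) + ((g : ℝ) : ℂ) • lam l) + c)) ∧
    Tendsto (fun l => f * Ring.inverse
      (t • (((1 - g : ℝ) : ℂ) • (1 : A) + ((g : ℝ) : ℂ) • lam l) + c)) atTop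
      (𝓝 (f * Ring.inverse (t • (1 : A) + c))) := by
  set u : ℕ → A := fun l => ((1 - g : ℝ) : ℂ) • (1 : A) + ((g : ℝ) : ℂ) • lam l with hu
  have h1g : (0 : ℝ) < 1 - g := by linarith
  have h1gc : ((1 - g : ℝ) : ℂ) ≠ 0 := by exact_mod_cast h1g.ne'
  have hunit : ∀ l, IsUnit (u l) := by
    intro l
    have h1 : IsUnit (1 - (-((g / (1 - g) : ℝ) : ℂ)) • lam l) := by
      apply isUnit_one_sub_of_norm_lt_one
      rw [norm_smul, norm_neg, Complex.norm_real, Real.norm_of_nonneg (by positivity)]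
      calc g / (1 - g) * ‖lam l‖ ≤ g / (1 - g) * C :=
            mul_le_mul_of_nonneg_left (hb l) (by positivity)
        _ = (g * C) / (1 - g) := by ring
        _ < 1 := by rw [div_lt_one h1g]; exact hgC
    have h2 : u l = ((1 - g : ℝ) : ℂ) • (1 - (-((g / (1 - g) : ℝ) : ℂ)) • lam l) := by
      have h3 : (((1 - g : ℝ) : ℂ)) * ((g / (1 - g) : ℝ) : ℂ) = ((g : ℝ) : ℂ) := by
        rw [← Complex.ofReal_mul]
        congr 1
        field_simp
      rw [hu]
      simp only [neg_smul, sub_neg_eq_add, smul_add, smul_smul]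
      rw [h3]
    rw [h2]
    have h3 : IsUnit (((1 - g : ℝ) : ℂ)) := isUnit_iff_ne_zero.2 h1gc
    obtain ⟨w, hw⟩ := h3
    obtain ⟨x, hx⟩ := h1
    rw [← hw, ← hx]
    exact (w • x).isUnit
  set v : ℕ → A := fun l => Ring.inverse (u l) with hv
  have huv : ∀ l, u l * v l = 1 := fun l => Ring.mul_inverse_cancel _ (hunit l)
  have hvu : ∀ l, v l * u l = 1 := fun l => Ring.inverse_mul_cancel _ (hunit l)
  have hpos : 0 < 1 - g - g * C := by linarith
  have hvb : ∀ l, ‖v l‖ ≤ ‖(1 : A)‖ / (1 - g - g * C) := by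
    intro l
    have h1 : ((1 - g : ℝ) : ℂ) • v l = 1 - ((g : ℝ) : ℂ) • (v l * lam l) := by
      have := hvu l
      rw [hu] at this
      simp only [mul_add, mul_smul_comm, mul_one] at this
      rw [← this]
      abel
    have h2 : ‖((1 - g : ℝ) : ℂ) • v l‖ = (1 - g) * ‖v l‖ := by
      rw [norm_smul, Complex.norm_real, Real.norm_of_nonneg h1g.le]
    have h3 : ‖((g : ℝ) : ℂ) • (v l * lam l)‖ ≤ g * (‖v l‖ * C) := by
      rw [norm_smul, Complex.norm_real, Real.norm_of_nonneg hg0.le]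
      apply mul_le_mul_of_nonneg_left _ hg0.le
      exact (norm_mul_le _ _).trans (mul_le_mul_of_nonneg_left (hb l) (norm_nonneg _))
    have h4 : (1 - g) * ‖v l‖ ≤ ‖(1 : A)‖ + g * (‖v l‖ * C) := by
      rw [← h2, h1]
      exact (norm_sub_le _ _).trans (by linarith)
    rw [le_div_iff₀ hpos]
    nlinarith
  have key : ∀ z : A, Tendsto (fun l => z * lam l) atTop (𝓝 z) →
      Tendsto (fun l => z * v l) atTop (𝓝 z) := by
    intro z hz
    rw [tendsto_iff_norm_sub_tendsto_zero] at hz ⊢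
    have hle : ∀ l, ‖z * v l - z‖ ≤ (g * (‖(1 : A)‖ / (1 - g - g * C))) * ‖z * lam l - z‖ := by
      intro l
      have h1 : z * v l - z = (((g : ℝ) : ℂ) • (z - z * lam l)) * v l := by
        have h2 : z = z * u l * v l := by rw [mul_assoc, huv l, mul_one]
        have h3 : z * u l = ((1 - g : ℝ) : ℂ) • z + ((g : ℝ) : ℂ) • (z * lam l) := by
          rw [hu]; simp only [mul_add, mul_smul_comm, mul_one]
        have h4 : z - z * u l = ((g : ℝ) : ℂ) • (z - z * lam l) := by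
          rw [h3, smul_sub]
          push_cast
          rw [sub_smul, one_smul]
          abel
        rw [← h4, sub_mul, ← h2]
      rw [h1]
      calc ‖(((g : ℝ) : ℂ) • (z - z * lam l)) * v l‖
          ≤ ‖((g : ℝ) : ℂ) • (z - z * lam l)‖ * ‖v l‖ := norm_mul_le _ _
        _ ≤ (g * ‖z * lam l - z‖) * (‖(1 : A)‖ / (1 - g - g * C)) := by
            apply mul_le_mul _ (hvb l) (norm_nonneg _) (by positivity)
            rw [norm_smul, Complex.norm_real, Real.norm_of_nonneg hg0.le, norm_sub_rev]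
        _ = _ := by ring
    have h0 : Tendsto (fun l => (g * (‖(1 : A)‖ / (1 - g - g * C))) * ‖z * lam l - z‖) atTop
        (𝓝 0) := by
      have := hz.const_mul (g * (‖(1 : A)‖ / (1 - g - g * C)))
      simpa using this
    exact squeeze_zero (fun l => norm_nonneg _) hle h0
  set a' : ℕ → A := fun l => t • (1 : A) + c * v l with ha'
  have hlim : Tendsto a' atTop (𝓝 (t • (1 : A) + c)) := (key c hc).const_add _
  have hev : ∀ᶠ l in atTop, IsUnit (a' l) := by
    have hopen : {x : A | IsUnit x} ∈ 𝓝 (t • (1 : A) + c) := Units.isOpen.mem_nhds ha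
    exact hlim hopen
  have hmul : ∀ l, t • u l + c = a' l * u l := by
    intro l
    rw [ha']
    simp only [add_mul, smul_mul_assoc, one_mul, mul_assoc, hvu l, mul_one]
  have hinv : ∀ᶠ l in atTop, f * Ring.inverse (t • u l + c) = (f * v l) * Ring.inverse (a' l) := by
    filter_upwards [hev] with l hl
    rw [hmul l, mul_assoc]
    congr 1
    obtain ⟨x, hx⟩ := hl
    obtain ⟨y, hy⟩ := hunit l
    rw [hv]
    simp only
    rw [← hx, ← hy, ← Units.val_mul, Ring.inverse_unit, Ring.inverse_unit, Ring.inverse_unit,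
      mul_inv_rev, Units.val_mul]
  refine ⟨?_, ?_⟩
  · filter_upwards [hev] with l hl
    change IsUnit (t • u l + c)
    rw [hmul l]
    exact hl.mul (hunit l)
  · have hcont : Tendsto (fun l => Ring.inverse (a' l)) atTop
        (𝓝 (Ring.inverse (t • (1 : A) + c))) := by
      obtain ⟨x, hx⟩ := ha
      have h1 := NormedRing.inverse_continuousAt x
      rw [ContinuousAt, hx] at h1
      exact h1.comp hlim
    have := (key f hf).mul hcont
    refine Tendsto.congr' ?_ this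
    filter_upwards [hinv] with l hl
    exact hl.symm

/-- Cohen's factorisation theorem in the form needed here. -/
theorem cohen (L : Submodule ℂ A) (hLc : IsClosed (L : Set A)) (C : ℝ) (hC : 0 ≤ C)
    (lam : ℕ → A) (hlam : ∀ l, lam l ∈ L) (hb : ∀ l, ‖lam l‖ ≤ C)
    (hr : ∀ f ∈ L, Tendsto (fun l => f * lam l) atTop (𝓝 f)) (f : A) (hf : f ∈ L) :
    ∃ b c : A, f = b * c ∧ c ∈ L ∧ b ∈ closure {x : A | ∃ a, x = f * a} := by
  classical
  set g : ℝ := 1 / (2 * (C + 1)) with hg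
  have hg0 : 0 < g := by positivity
  have hg1 : g < 1 := by
    rw [hg, div_lt_one (by positivity)]
    linarith
  have hgC : g * C < 1 - g := by
    have h1 : g * (C + 1) = 1 / 2 := by
      rw [hg]; field_simp
    nlinarith
  set r : ℂ := ((1 - g : ℝ) : ℂ) with hrdef
  let P : ℕ → A → Prop := fun n c => c ∈ L ∧ IsUnit (r ^ n • (1 : A) + c)
  let Q : ℕ → A → A → Prop := fun n c c' => ‖c - c'‖ ≤ g * C * (1 - g) ^ n ∧
    ‖f * Ring.inverse (r ^ n • (1 : A) + c) - f * Ring.inverse (r ^ (n + 1) • (1 : A) + c')‖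
      ≤ 1 * (1 / 2 : ℝ) ^ n
  have h0 : P 0 0 := ⟨L.zero_mem, by simp⟩
  have hstep : ∀ n c, P n c → ∃ c', P (n + 1) c' ∧ Q n c c' := by
    rintro n c ⟨hcL, hcu⟩
    obtain ⟨h1, h2⟩ := cohen_step g C hg0 hg1 hgC hC lam hb f c (r ^ n) (hr f hf) (hr c hcL) hcu
    have h3 : ∀ᶠ l in atTop, ‖f * Ring.inverse (r ^ n • (1 : A) + c) - f * Ring.inverse
        (r ^ n • (((1 - g : ℝ) : ℂ) • (1 : A) + ((g : ℝ) : ℂ) • lam l) + c)‖
          < 1 * (1 / 2 : ℝ) ^ n := by
      have h4 := (tendsto_iff_norm_sub_tendsto_zero.1 h2)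
      have h5 : (0 : ℝ) < 1 * (1 / 2 : ℝ) ^ n := by positivity
      filter_upwards [h4.eventually (gt_mem_nhds h5)] with l hl
      rw [norm_sub_rev]
      exact hl
    obtain ⟨l, hl1, hl2⟩ := (h1.and h3).exists
    have heq : r ^ n • (((1 - g : ℝ) : ℂ) • (1 : A) + ((g : ℝ) : ℂ) • lam l) + c
        = r ^ (n + 1) • (1 : A) + (c + (r ^ n * g) • lam l) := by
      rw [smul_add, smul_smul, smul_smul, pow_succ]
      rw [← hrdef]
      abel
    refine ⟨c + (r ^ n * g) • lam l, ⟨L.add_mem hcL (L.smul_mem _ (hlam l)), ?_⟩, ?_, ?_⟩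
    · rw [← heq]; exact hl1
    · have : c - (c + (r ^ n * g) • lam l) = -((r ^ n * g) • lam l) := by abel
      rw [this, norm_neg, norm_smul, norm_mul, norm_pow]
      have h6 : ‖r‖ = 1 - g := by
        rw [hrdef, Complex.norm_real, Real.norm_of_nonneg (by linarith)]
      rw [h6, Complex.norm_real, Real.norm_of_nonneg hg0.le]
      have h7 : 0 ≤ (1 - g) ^ n * g := by
        apply mul_nonneg (pow_nonneg (by linarith) n) hg0.le
      calc (1 - g) ^ n * g * ‖lam l‖ ≤ (1 - g) ^ n * g * C :=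
            mul_le_mul_of_nonneg_left (hb l) h7
        _ = g * C * (1 - g) ^ n := by ring
    · rw [← heq]; exact hl2.le
  obtain ⟨s, -, hs⟩ := exists_seq_step P Q 0 h0 hstep
  have hcs : CauchySeq s := by
    apply cauchySeq_of_le_geometric (1 - g) (g * C) (by linarith)
    intro n
    rw [dist_eq_norm]
    exact (hs n).2.1
  obtain ⟨c, hc⟩ := cauchySeq_tendsto_of_complete hcs
  have hcL : c ∈ L := hLc.mem_of_tendsto hc (Eventually.of_forall fun n => (hs n).1.1)
  have hbs : CauchySeq (fun n => f * Ring.inverse (r ^ n • (1 : A) + s n)) := by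
    apply cauchySeq_of_le_geometric (1 / 2) 1 (by norm_num)
    intro n
    rw [dist_eq_norm]
    exact (hs n).2.2
  obtain ⟨b, hb'⟩ := cauchySeq_tendsto_of_complete hbs
  refine ⟨b, c, ?_, hcL, ?_⟩
  · have h1 : Tendsto (fun n => r ^ n • (1 : A) + s n) atTop (𝓝 (0 + c)) := by
      apply Tendsto.add _ hc
      have h2 : Tendsto (fun n : ℕ => r ^ n) atTop (𝓝 0) := by
        apply tendsto_pow_atTop_nhds_zero_of_norm_lt_one
        rw [hrdef, Complex.norm_real, Real.norm_of_nonneg (by linarith)]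
        linarith
      simpa using h2.smul_const (1 : A)
    rw [zero_add] at h1
    have h3 := hb'.mul h1
    have h4 : ∀ n, (f * Ring.inverse (r ^ n • (1 : A) + s n)) * (r ^ n • (1 : A) + s n) = f := by
      intro n
      rw [mul_assoc, Ring.inverse_mul_cancel _ (hs n).1.2, mul_one]
    simp only [h4] at h3
    exact tendsto_nhds_unique tendsto_const_nhds h3
  · exact mem_closure_of_tendsto hb' (Eventually.of_forall fun n => ⟨_, rfl⟩)

/-- correction of approximate elements -/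
theorem correct (e : ℕ → A) (C : ℝ) (he : ∀ k, ‖e k‖ ≤ C)
    (P1 : ∀ ε : ℝ, 0 < ε → ∃ K, ∀ k ≥ K, ∃ L, ∀ l ≥ L, ‖e k * (1 - e l)‖ ≤ ε)
    (f : A) (η : ℝ) (hη : 0 < η) (hf : ∃ L, ∀ l ≥ L, ‖f * (1 - e l)‖ ≤ η) :
    ∃ g : A, ‖f - g‖ ≤ 2 * η ∧ Tendsto (fun l => g * (1 - e l)) atTop (𝓝 0) := by
  let P : ℕ → A → Prop := fun n x => ∃ L, ∀ l ≥ L, ‖x * (1 - e l)‖ ≤ η * (1 / 2 : ℝ) ^ n
  let Q : ℕ → A → A → Prop := fun n x y => ‖x - y‖ ≤ η * (1 / 2 : ℝ) ^ n
  have h0 : P 0 f := by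
    obtain ⟨L, hL⟩ := hf
    exact ⟨L, fun l hl => by simpa using hL l hl⟩
  have hstep : ∀ n x, P n x → ∃ y, P (n + 1) y ∧ Q n x y := by
    rintro n x ⟨L, hL⟩
    have hpos : 0 < η * (1 / 2 : ℝ) ^ (n + 1) / (‖x‖ + 1) := by positivity
    obtain ⟨K, hK⟩ := P1 _ hpos
    obtain ⟨L', hL'⟩ := hK (max K L) (le_max_left _ _)
    refine ⟨x * e (max K L), ⟨L', fun l hl => ?_⟩, ?_⟩
    · rw [mul_assoc]
      calc ‖x * (e (max K L) * (1 - e l))‖ ≤ ‖x‖ * ‖e (max K L) * (1 - e l)‖ := norm_mul_le _ _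
        _ ≤ ‖x‖ * (η * (1 / 2 : ℝ) ^ (n + 1) / (‖x‖ + 1)) :=
            mul_le_mul_of_nonneg_left (hL' l hl) (norm_nonneg _)
        _ ≤ (‖x‖ + 1) * (η * (1 / 2 : ℝ) ^ (n + 1) / (‖x‖ + 1)) :=
            mul_le_mul_of_nonneg_right (by linarith) hpos.le
        _ = η * (1 / 2 : ℝ) ^ (n + 1) := by field_simp
    · change ‖x - x * e (max K L)‖ ≤ _
      have : x - x * e (max K L) = x * (1 - e (max K L)) := by rw [mul_sub, mul_one]
      rw [this]
      exact hL _ (le_max_right _ _)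
  obtain ⟨s, hs0, hs⟩ := exists_seq_step P Q f h0 hstep
  have hcs : CauchySeq s := by
    apply cauchySeq_of_le_geometric (1 / 2) η (by norm_num)
    intro n
    rw [dist_eq_norm]
    exact (hs n).2
  obtain ⟨g, hg⟩ := cauchySeq_tendsto_of_complete hcs
  have hdist : ∀ n, ‖s n - g‖ ≤ 2 * η * (1 / 2 : ℝ) ^ n := by
    intro n
    have := dist_le_of_le_geometric_of_tendsto (1 / 2) η (by norm_num)
      (fun n => by rw [dist_eq_norm]; exact (hs n).2) hg n
    rw [dist_eq_norm] at this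
    calc _ ≤ _ := this
      _ = _ := by ring
  refine ⟨g, ?_, ?_⟩
  · have := hdist 0
    rw [hs0] at this
    simpa using this
  · rw [tendsto_zero_iff_norm_tendsto_zero, Metric.tendsto_atTop]
    intro ε hε
    have hlim : Tendsto (fun n : ℕ => (2 * η * (‖(1 : A)‖ + C) + η) * (1 / 2 : ℝ) ^ n) atTop
        (𝓝 0) := by
      have := (tendsto_pow_atTop_nhds_zero_of_lt_one (r := (1 / 2 : ℝ)) (by norm_num)
        (by norm_num)).const_mul (2 * η * (‖(1 : A)‖ + C) + η)
      simpa using this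
    obtain ⟨n, hn⟩ := (hlim.eventually (gt_mem_nhds hε)).exists
    obtain ⟨L, hL⟩ := (hs n).1
    refine ⟨L, fun l hl => ?_⟩
    rw [Real.dist_eq, sub_zero, abs_of_nonneg (norm_nonneg _)]
    have h1 : g * (1 - e l) = s n * (1 - e l) - (s n - g) * (1 - e l) := by
      rw [sub_mul]; abel
    have h2 : ‖1 - e l‖ ≤ ‖(1 : A)‖ + C := (norm_sub_le _ _).trans (by linarith [he l])
    have hC : 0 ≤ ‖(1 : A)‖ + C := (norm_nonneg _).trans h2
    rw [h1]
    calc ‖s n * (1 - e l) - (s n - g) * (1 - e l)‖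
        ≤ ‖s n * (1 - e l)‖ + ‖(s n - g) * (1 - e l)‖ := norm_sub_le _ _
      _ ≤ η * (1 / 2 : ℝ) ^ n + (2 * η * (1 / 2 : ℝ) ^ n) * (‖(1 : A)‖ + C) := by
          apply add_le_add (hL l hl)
          exact (norm_mul_le _ _).trans (mul_le_mul (hdist n) h2 (norm_nonneg _) (by positivity))
      _ = (2 * η * (‖(1 : A)‖ + C) + η) * (1 / 2 : ℝ) ^ n := by ring
      _ < ε := hn

/-- the left ideal of elements killed in the limit by `1 - e l` -/
def Lid (e : ℕ → A) (C : ℝ) (he : ∀ k, ‖e k‖ ≤ C) : Submodule ℂ A where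
  carrier := {f | Tendsto (fun l => f * (1 - e l)) atTop (𝓝 0)}
  zero_mem' := by simp
  add_mem' := by
    intro a b ha hb
    have := ha.add hb
    simpa [add_mul] using this
  smul_mem' := by
    intro c a ha
    have := ha.const_smul c
    simpa using this

theorem mem_Lid {e : ℕ → A} {C : ℝ} {he : ∀ k, ‖e k‖ ≤ C} {f : A} :
    f ∈ Lid e C he ↔ Tendsto (fun l => f * (1 - e l)) atTop (𝓝 0) := Iff.rfl

theorem Lid_closed (e : ℕ → A) (C : ℝ) (he : ∀ k, ‖e k‖ ≤ C) :
    IsClosed (Lid e C he : Set A) := by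
  rw [← isSeqClosed_iff_isClosed]
  intro s g hs hg
  change Tendsto (fun l => g * (1 - e l)) atTop (𝓝 0)
  rw [tendsto_zero_iff_norm_tendsto_zero, Metric.tendsto_atTop]
  intro ε hε
  have hC : 0 < ‖(1 : A)‖ + |C| + 1 := by positivity
  have h1 : ∀ᶠ n in atTop, ‖s n - g‖ < ε / 2 / (‖(1 : A)‖ + |C| + 1) := by
    have := tendsto_iff_norm_sub_tendsto_zero.1 hg
    exact this.eventually (gt_mem_nhds (by positivity))
  obtain ⟨n, hn⟩ := h1.exists
  have h2 : Tendsto (fun l => s n * (1 - e l)) atTop (𝓝 0) := hs n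
  rw [tendsto_zero_iff_norm_tendsto_zero] at h2
  obtain ⟨L, hL⟩ := (Metric.tendsto_atTop.1 h2) (ε / 2) (by positivity)
  refine ⟨L, fun l hl => ?_⟩
  have h3 := hL l hl
  rw [Real.dist_eq, sub_zero, abs_of_nonneg (norm_nonneg _)] at h3 ⊢
  have h4 : g * (1 - e l) = s n * (1 - e l) - (s n - g) * (1 - e l) := by
    rw [sub_mul]; abel
  have h5 : ‖1 - e l‖ ≤ ‖(1 : A)‖ + |C| + 1 :=
    (norm_sub_le _ _).trans (by linarith [he l, le_abs_self C])
  rw [h4]
  calc ‖s n * (1 - e l) - (s n - g) * (1 - e l)‖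
      ≤ ‖s n * (1 - e l)‖ + ‖(s n - g) * (1 - e l)‖ := norm_sub_le _ _
    _ < ε / 2 + (ε / 2 / (‖(1 : A)‖ + |C| + 1)) * (‖(1 : A)‖ + |C| + 1) := by
        apply add_lt_add_of_lt_of_le h3
        exact (norm_mul_le _ _).trans (mul_le_mul hn.le h5 (norm_nonneg _) (by positivity))
    _ = ε := by field_simp; ring

theorem Lid_mul_left {e : ℕ → A} {C : ℝ} {he : ∀ k, ‖e k‖ ≤ C} {f : A}
    (hf : f ∈ Lid e C he) (a : A) : a * f ∈ Lid e C he := by
  rw [mem_Lid] at hf ⊢
  have := hf.const_mul a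
  simpa [mul_assoc] using this

/-- approximation of `e k` by elements of the left ideal -/
theorem Lid_approx (e : ℕ → A) (C : ℝ) (he : ∀ k, ‖e k‖ ≤ C)
    (P1 : ∀ ε : ℝ, 0 < ε → ∃ K, ∀ k ≥ K, ∃ L, ∀ l ≥ L, ‖e k * (1 - e l)‖ ≤ ε)
    (ε : ℝ) (hε : 0 < ε) : ∃ K, ∀ k ≥ K, ∃ g ∈ Lid e C he, ‖g - e k‖ ≤ ε := by
  obtain ⟨K, hK⟩ := P1 (ε / 2) (by positivity)
  refine ⟨K, fun k hk => ?_⟩
  obtain ⟨g, hg1, hg2⟩ := correct e C he P1 (e k) (ε / 2) (by positivity) (hK k hk)
  refine ⟨g, hg2, ?_⟩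
  rw [norm_sub_rev]
  linarith

/-- every element of the left ideal is a product of two elements of `I` -/
theorem Lid_factor (I : Submodule ℂ A) (hI : IsClosed (I : Set A))
    (hIl : ∀ f ∈ I, ∀ a, a * f ∈ I) (hIr : ∀ f ∈ I, ∀ a, f * a ∈ I)
    (e : ℕ → A) (C : ℝ) (he : ∀ k, ‖e k‖ ≤ C) (heI : ∀ k, e k ∈ I)
    (P1 : ∀ ε : ℝ, 0 < ε → ∃ K, ∀ k ≥ K, ∃ L, ∀ l ≥ L, ‖e k * (1 - e l)‖ ≤ ε)
    (f : A) (hf : f ∈ Lid e C he) : ∃ b ∈ I, ∃ c ∈ I, f = b * c := by
  have hsub : ∀ f ∈ Lid e C he, f ∈ I := by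
    intro f hf
    have h1 : Tendsto (fun l => f * e l) atTop (𝓝 f) := by
      have h2 := (mem_Lid.1 hf).const_sub f
      simp only [mul_sub, mul_one, sub_sub_cancel, sub_zero] at h2
      exact h2
    exact hI.mem_of_tendsto h1 (Eventually.of_forall fun l => hIl _ (heI l) _)
  have hlim : ∀ f ∈ Lid e C he, Tendsto (fun l => f * e l) atTop (𝓝 f) := by
    intro f hf
    have h2 := (mem_Lid.1 hf).const_sub f
    simp only [mul_sub, mul_one, sub_sub_cancel, sub_zero] at h2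
    exact h2
  have h1 : ∀ j : ℕ, ∃ k ≥ j, ∃ g ∈ Lid e C he, ‖g - e k‖ ≤ 1 / ((j : ℝ) + 1) := by
    intro j
    obtain ⟨K, hK⟩ := Lid_approx e C he P1 (1 / ((j : ℝ) + 1)) (by positivity)
    exact ⟨max j K, le_max_left _ _, hK _ (le_max_right _ _)⟩
  choose k hk lam hlam hdist using h1
  have hk' : Tendsto k atTop atTop := tendsto_atTop_mono hk tendsto_id
  have hb : ∀ l, ‖lam l‖ ≤ |C| + 1 := by
    intro l
    have h2 : lam l = e (k l) + (lam l - e (k l)) := by abel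
    have h3 : 1 / ((l : ℝ) + 1) ≤ 1 := by
      rw [div_le_one (by positivity)]
      linarith [(Nat.cast_nonneg l : (0 : ℝ) ≤ l)]
    rw [h2]
    calc _ ≤ ‖e (k l)‖ + ‖lam l - e (k l)‖ := norm_add_le _ _
      _ ≤ |C| + 1 := by
          apply add_le_add ((he _).trans (le_abs_self C)) ((hdist l).trans h3)
  have hr : ∀ f ∈ Lid e C he, Tendsto (fun l => f * lam l) atTop (𝓝 f) := by
    intro f hf
    have h2 := (hlim f hf).comp hk'
    have h3 : Tendsto (fun l => lam l - e (k l)) atTop (𝓝 0) := by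
      rw [tendsto_zero_iff_norm_tendsto_zero]
      exact squeeze_zero (fun l => norm_nonneg _) hdist tendsto_one_div_add_atTop_nhds_zero_nat
    have h4 := h2.add (h3.const_mul f)
    simp only [mul_zero, add_zero] at h4
    refine h4.congr (fun l => ?_)
    simp only [Function.comp]
    rw [mul_sub]
    abel
  obtain ⟨b, c, h2, h3, h4⟩ := cohen (Lid e C he) (Lid_closed e C he) (|C| + 1) (by positivity)
    lam hlam hb hr f hf
  refine ⟨b, ?_, c, hsub c h3, h2⟩
  have h5 : {x : A | ∃ a, x = f * a} ⊆ (I : Set A) := by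
    rintro x ⟨a, rfl⟩
    exact hIr _ (hsub f hf) a
  exact closure_minimal h5 hI h4

end

end Pool.Agent.Y74.CI
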