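import Pool.Agent.Y74.CI.Abs

set_option autoImplicit false
set_option linter.unusedSectionVars false
set_option linter.unusedVariables false

open Filter Topology MulOpposite

namespace Pool.Agent.Y74.CI

section

variable {A : Type*} [NormedRing A] [NormedAlgebra ℂ A] [CompleteSpace A]

theorem factor (I : Submodule ℂ A) (hI : IsClosed (I : Set A))
    (hIl : ∀ f ∈ I, ∀ a, a * f ∈ I) (hIr : ∀ f ∈ I, ∀ a, f * a ∈ I)
    (e e' : ℕ → A) (C : ℝ) (hC : 0 ≤ C) (he : ∀ k, ‖e k‖ ≤ C) (he' : ∀ k, ‖e' k‖ ≤ C)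
    (heI : ∀ k, e k ∈ I) (heI' : ∀ k, e' k ∈ I)
    (P1 : ∀ ε : ℝ, 0 < ε → ∃ K, ∀ k ≥ K, ∃ L, ∀ l ≥ L, ‖e k * (1 - e l)‖ ≤ ε)
    (P1' : ∀ ε : ℝ, 0 < ε → ∃ K, ∀ k ≥ K, ∃ L, ∀ l ≥ L, ‖(1 - e' l) * e' k‖ ≤ ε)
    (P2 : ∀ f ∈ I, ∀ ε : ℝ, 0 < ε → ∃ K, ∀ k ≥ K, ‖(1 - e' k) * f * (1 - e k)‖ ≤ ε) :
    ∀ f ∈ I, ∃ b ∈ I, ∃ c ∈ I, ∃ b' ∈ I, ∃ c' ∈ I, f = b * c + b' * c' := by
  classical
  -- the right ideal
  let eo : ℕ → Aᵐᵒᵖ := fun k => op (e' k)
  have heo : ∀ k, ‖eo k‖ ≤ C := fun k => by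
    change ‖op (e' k)‖ ≤ C
    rw [norm_op]
    exact he' k
  have P1o : ∀ ε : ℝ, 0 < ε → ∃ K, ∀ k ≥ K, ∃ L, ∀ l ≥ L, ‖eo k * (1 - eo l)‖ ≤ ε := by
    intro ε hε
    obtain ⟨K, hK⟩ := P1' ε hε
    refine ⟨K, fun k hk => ?_⟩
    obtain ⟨L, hL⟩ := hK k hk
    refine ⟨L, fun l hl => ?_⟩
    have h1 : eo k * (1 - eo l) = op ((1 - e' l) * e' k) := by
      simp [eo]
    rw [h1, norm_op]
    exact hL l hl
  let Io : Submodule ℂ Aᵐᵒᵖ := I.comap (opLinearEquiv ℂ : A ≃ₗ[ℂ] Aᵐᵒᵖ).symm.toLinearMap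
  have hIo : IsClosed (Io : Set Aᵐᵒᵖ) := hI.preimage MulOpposite.continuous_unop
  have memIo : ∀ x : Aᵐᵒᵖ, x ∈ Io ↔ unop x ∈ I := fun x => Iff.rfl
  let L := Lid e C he
  let R : Submodule ℂ A := (Lid eo C heo).comap (opLinearEquiv ℂ : A ≃ₗ[ℂ] Aᵐᵒᵖ).toLinearMap
  have memR : ∀ x : A, x ∈ R ↔ op x ∈ Lid eo C heo := fun x => Iff.rfl
  have hRc : IsClosed (R : Set A) := (Lid_closed eo C heo).preimage MulOpposite.continuous_op
  have hLc : IsClosed (L : Set A) := Lid_closed e C he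
  have hLf : ∀ f ∈ L, ∃ b ∈ I, ∃ c ∈ I, f = b * c :=
    fun f hf => Lid_factor I hI hIl hIr e C he heI P1 f hf
  have hRf : ∀ f ∈ R, ∃ b ∈ I, ∃ c ∈ I, f = b * c := by
    intro f hf
    obtain ⟨b, hb, c, hc, h⟩ := Lid_factor Io hIo
      (fun f hf a => by
        rw [memIo] at hf ⊢
        rw [unop_mul]
        exact hIr _ hf _)
      (fun f hf a => by
        rw [memIo] at hf ⊢
        rw [unop_mul]
        exact hIl _ hf _) eo C heo (fun k => by
          rw [memIo]; exact heI' k) P1o (op f) hf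
    refine ⟨unop c, hc, unop b, hb, ?_⟩
    have := congrArg unop h
    simpa using this
  have hLI : ∀ f ∈ L, f ∈ I := by
    intro f hf
    obtain ⟨b, hb, c, hc, rfl⟩ := hLf f hf
    exact hIr _ hb _
  have hRI : ∀ f ∈ R, f ∈ I := by
    intro f hf
    obtain ⟨b, hb, c, hc, rfl⟩ := hRf f hf
    exact hIr _ hb _
  have hRmul : ∀ f ∈ R, ∀ a, f * a ∈ R := by
    intro f hf a
    rw [memR] at hf ⊢
    rw [op_mul]
    exact Lid_mul_left hf _
  -- one step of the decomposition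
  set N : ℝ := ‖(1 : A)‖ + C + 1 with hN
  have hN1 : 1 ≤ N := by rw [hN]; linarith [norm_nonneg (1 : A)]
  have hstep0 : ∀ f ∈ I, ∀ δ : ℝ, 0 < δ → ∃ l ∈ L, ∃ r ∈ R, ‖f - l - r‖ ≤ δ ∧
      ‖l‖ ≤ (C + 1) * ‖f‖ ∧ ‖r‖ ≤ (C + 1) * (1 + (C + 1)) * ‖f‖ := by
    intro f hf δ hδ
    -- choose the error
    set ε : ℝ := min 1 (δ / 2 / (3 * N * (‖f‖ + 1))) with hε
    have hN0 : 0 < N := by linarith
    have hεpos : 0 < ε := by
      rw [hε]
      apply lt_min one_pos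
      positivity
    have hε1 : ε ≤ 1 := min_le_left _ _
    have hε2 : ε * (3 * N * (‖f‖ + 1)) ≤ δ / 2 := by
      have h1 : ε ≤ δ / 2 / (3 * N * (‖f‖ + 1)) := min_le_right _ _
      rw [le_div_iff₀ (by positivity)] at h1
      exact h1
    obtain ⟨K1, hK1⟩ := Lid_approx e C he P1 ε hεpos
    obtain ⟨K2, hK2⟩ := Lid_approx eo C heo P1o ε hεpos
    obtain ⟨K3, hK3⟩ := P2 f hf (δ / 2) (by positivity)
    set k := max K1 (max K2 K3) with hk
    obtain ⟨g, hg1, hg2⟩ := hK1 k (le_max_left _ _)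
    obtain ⟨g', hg1', hg2'⟩ := hK2 k (le_trans (le_max_left _ _) (le_max_right _ _))
    have hk3 := hK3 k (le_trans (le_max_right _ _) (le_max_right _ _))
    have hg2'' : ‖unop g' - e' k‖ ≤ ε := by
      have : g' - eo k = op (unop g' - e' k) := by simp [eo]
      rw [this, norm_op] at hg2'
      exact hg2'
    set h := unop g' with hh
    have hhR : h ∈ R := by
      rw [memR]; simpa [hh] using hg1'
    have hgn : ‖g‖ ≤ C + 1 := by
      have : g = e k + (g - e k) := by abel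
      rw [this]
      exact (norm_add_le _ _).trans (add_le_add (he k) (hg2.trans hε1))
    have hhn : ‖h‖ ≤ C + 1 := by
      have : h = e' k + (h - e' k) := by abel
      rw [this]
      exact (norm_add_le _ _).trans (add_le_add (he' k) (hg2''.trans hε1))
    refine ⟨f * g, Lid_mul_left hg1 f, h * (f - f * g), hRmul h hhR _, ?_, ?_, ?_⟩
    · have h1 : f - f * g - h * (f - f * g) = (1 - e' k) * f * (1 - e k)
          - (h - e' k) * (f * (1 - e k)) - (1 - h) * (f * (g - e k)) := by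
        noncomm_ring
      have h2 : ‖1 - e k‖ ≤ N := by
        rw [hN]
        exact (norm_sub_le _ _).trans (by linarith [he k])
      have h3 : ‖1 - h‖ ≤ N := by
        rw [hN]
        exact (norm_sub_le _ _).trans (by linarith [hhn])
      have h4 : ‖(h - e' k) * (f * (1 - e k))‖ ≤ ε * (‖f‖ * N) := by
        refine (norm_mul_le _ _).trans (mul_le_mul hg2'' ?_ (norm_nonneg _) hεpos.le)
        exact (norm_mul_le _ _).trans (mul_le_mul_of_nonneg_left h2 (norm_nonneg _))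
      have h5 : ‖(1 - h) * (f * (g - e k))‖ ≤ N * (‖f‖ * ε) := by
        refine (norm_mul_le _ _).trans (mul_le_mul h3 ?_ (norm_nonneg _) hN0.le)
        exact (norm_mul_le _ _).trans (mul_le_mul_of_nonneg_left hg2 (norm_nonneg _))
      rw [h1]
      calc _ ≤ ‖(1 - e' k) * f * (1 - e k)‖ + ‖(h - e' k) * (f * (1 - e k))‖
            + ‖(1 - h) * (f * (g - e k))‖ :=
            (norm_sub_le _ _).trans (add_le_add (norm_sub_le _ _) le_rfl)
        _ ≤ δ / 2 + ε * (‖f‖ * N) + N * (‖f‖ * ε) := add_le_add (add_le_add hk3 h4) h5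
        _ ≤ δ := by nlinarith [norm_nonneg f, mul_nonneg hεpos.le hN0.le]
    · rw [mul_comm (C + 1)]
      exact (norm_mul_le _ _).trans (mul_le_mul_of_nonneg_left hgn (norm_nonneg _))
    · have h6 : ‖f - f * g‖ ≤ (1 + (C + 1)) * ‖f‖ := by
        refine (norm_sub_le _ _).trans ?_
        have := (norm_mul_le f g).trans (mul_le_mul_of_nonneg_left hgn (norm_nonneg _))
        linarith
      calc ‖h * (f - f * g)‖ ≤ ‖h‖ * ‖f - f * g‖ := norm_mul_le _ _
        _ ≤ (C + 1) * ((1 + (C + 1)) * ‖f‖) := mul_le_mul hhn h6 (norm_nonneg _) (by positivity)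
        _ = _ := by ring
  intro f hf
  -- iterate
  set F : ℝ := ‖f‖ + 1 with hF
  have hFpos : 0 < F := by positivity
  let P : ℕ → A → Prop := fun n x => x ∈ I ∧ ‖x‖ ≤ F * (1 / 2 : ℝ) ^ n
  let Q : ℕ → A → A → Prop := fun n x y => ∃ l ∈ L, ∃ r ∈ R, y = x - l - r ∧
    ‖l‖ ≤ (C + 1) * (F * (1 / 2 : ℝ) ^ n) ∧
    ‖r‖ ≤ (C + 1) * (1 + (C + 1)) * (F * (1 / 2 : ℝ) ^ n)
  have h0 : P 0 f := ⟨hf, by rw [hF]; simp⟩
  have hst : ∀ n x, P n x → ∃ y, P (n + 1) y ∧ Q n x y := by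
    rintro n x ⟨hx, hxn⟩
    obtain ⟨l, hl, r, hr, h1, h2, h3⟩ := hstep0 x hx (F * (1 / 2 : ℝ) ^ (n + 1)) (by positivity)
    refine ⟨x - l - r, ⟨I.sub_mem (I.sub_mem hx (hLI l hl)) (hRI r hr), h1⟩, l, hl, r, hr, rfl,
      h2.trans ?_, h3.trans ?_⟩
    · exact mul_le_mul_of_nonneg_left hxn (by positivity)
    · exact mul_le_mul_of_nonneg_left hxn (by positivity)
  obtain ⟨s, hs0, hs⟩ := exists_seq_step P Q f h0 hst
  have hs2 := fun n => (hs n).2
  choose l hl r hr hlr hln hrn using hs2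
  have hsl : Summable l := by
    apply Summable.of_norm_bounded (g := fun n => (C + 1) * (F * (1 / 2 : ℝ) ^ n)) _ hln
    exact (((summable_geometric_of_lt_one (by norm_num) (by norm_num)).mul_left F).mul_left _)
  have hsr : Summable r := by
    apply Summable.of_norm_bounded
      (g := fun n => (C + 1) * (1 + (C + 1)) * (F * (1 / 2 : ℝ) ^ n)) _ hrn
    exact (((summable_geometric_of_lt_one (by norm_num) (by norm_num)).mul_left F).mul_left _)
  have hsum : ∀ n, f = s n + ∑ j ∈ Finset.range n, (l j + r j) := by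
    intro n
    induction n with
    | zero => simp [hs0]
    | succ n ih =>
      rw [Finset.sum_range_succ, hlr n]
      conv_lhs => rw [ih]
      abel
  have hs_lim : Tendsto s atTop (𝓝 0) := by
    rw [tendsto_zero_iff_norm_tendsto_zero]
    refine squeeze_zero (fun n => norm_nonneg _) (fun n => (hs n).1.2) ?_
    have := (tendsto_pow_atTop_nhds_zero_of_lt_one (r := (1 / 2 : ℝ)) (by norm_num)
      (by norm_num)).const_mul F
    simpa using this
  have hfeq : f = (∑' n, l n) + ∑' n, r n := by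
    have h1 : Tendsto (fun n => s n + ∑ j ∈ Finset.range n, (l j + r j)) atTop
        (𝓝 (0 + ∑' n, (l n + r n))) := hs_lim.add (hsl.add hsr).hasSum.tendsto_sum_nat
    have h2 : Tendsto (fun n => s n + ∑ j ∈ Finset.range n, (l j + r j)) atTop (𝓝 f) := by
      refine tendsto_const_nhds.congr (fun n => hsum n)
    rw [← hsl.tsum_add hsr, ← zero_add (∑' n, (l n + r n))]
    exact tendsto_nhds_unique h2 h1
  have hlL : (∑' n, l n) ∈ L := by
    have := hsl.hasSum.tendsto_sum_nat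
    exact hLc.mem_of_tendsto this (Eventually.of_forall fun n => L.sum_mem fun j _ => hl j)
  have hrR : (∑' n, r n) ∈ R := by
    have := hsr.hasSum.tendsto_sum_nat
    exact hRc.mem_of_tendsto this (Eventually.of_forall fun n => R.sum_mem fun j _ => hr j)
  obtain ⟨b, hb, c, hc, h1⟩ := hLf _ hlL
  obtain ⟨b', hb', c', hc', h2⟩ := hRf _ hrR
  exact ⟨b, hb, c, hc, b', hb', c', hc', by rw [hfeq, h1, h2]⟩

end

end Pool.Agent.Y74.CI
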