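import Pool.Agent.Y74.CI.Base

/-!
# Positive elements, averages and ultralimits
-/

set_option autoImplicit false
set_option linter.unusedSectionVars false
set_option linter.unusedVariables false

open Filter Topology
open scoped ComplexConjugate

namespace Pool.Agent.Y74.CI

section avg

variable {G : Type*} [DecidableEq G] [Group G]

noncomputable instance instN1 : NormOneClass (AA G) := ⟨norm_delta 1⟩

/-- probability-like elements -/
def Pos (p : AA G) : Prop := ∀ (φ : DD G) (c : ℝ), (∀ x, c ≤ (φ (delta x)).re) → c ≤ (φ p).re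

theorem pos_one : Pos (1 : AA G) := fun φ c h => h 1

theorem Pos.mul {p q : AA G} (hp : Pos p) (hq : Pos q) : Pos (p * q) := by
  intro φ c h
  have h1 := hp (Rt φ q) c (fun x => by
    rw [Rt_apply]
    exact hq (Lt φ (delta x)) c (fun y => by
      rw [Lt_apply, delta_mul_delta]
      exact h _))
  rwa [Rt_apply] at h1

theorem Pos.pow {p : AA G} (hp : Pos p) (n : ℕ) : Pos (p ^ n) := by
  induction n with
  | zero => simpa using pos_one
  | succ n ih => rw [pow_succ]; exact ih.mul hp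

/-- Cesàro averages -/
noncomputable def avg (μ : AA G) (n : ℕ) : AA G :=
  ((((n : ℝ) + 1)⁻¹ : ℝ) : ℂ) • ∑ j ∈ Finset.range (n + 1), μ ^ j

theorem pos_avg {μ : AA G} (h : Pos μ) (n : ℕ) : Pos (avg μ n) := by
  intro φ c hφ
  have h1 : (φ (avg μ n)).re = ((n : ℝ) + 1)⁻¹ * ∑ j ∈ Finset.range (n + 1), (φ (μ ^ j)).re := by
    rw [avg, map_smul, map_sum, smul_eq_mul, Complex.re_ofReal_mul, Complex.re_sum]
  rw [h1]
  have h2 : ∑ j ∈ Finset.range (n + 1), c ≤ ∑ j ∈ Finset.range (n + 1), (φ (μ ^ j)).re :=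
    Finset.sum_le_sum fun j _ => h.pow j φ c hφ
  rw [Finset.sum_const, Finset.card_range, nsmul_eq_mul] at h2
  push_cast at h2
  have h3 : (0 : ℝ) < (n : ℝ) + 1 := by positivity
  rw [inv_mul_eq_div, le_div_iff₀ h3]
  linarith

theorem norm_avg_le {μ : AA G} (h : ‖μ‖ ≤ 1) (n : ℕ) : ‖avg μ n‖ ≤ 1 := by
  have h3 : (0 : ℝ) < (n : ℝ) + 1 := by positivity
  rw [avg, norm_smul, Complex.norm_real, Real.norm_of_nonneg (by positivity)]
  have h1 : ‖∑ j ∈ Finset.range (n + 1), μ ^ j‖ ≤ (n : ℝ) + 1 := by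
    calc _ ≤ ∑ j ∈ Finset.range (n + 1), ‖μ ^ j‖ := norm_sum_le _ _
      _ ≤ ∑ j ∈ Finset.range (n + 1), (1 : ℝ) := Finset.sum_le_sum fun j _ => by
          exact (norm_pow_le μ j).trans (pow_le_one₀ (norm_nonneg _) h)
      _ = (n : ℝ) + 1 := by simp
  calc ((n : ℝ) + 1)⁻¹ * ‖∑ j ∈ Finset.range (n + 1), μ ^ j‖
      ≤ ((n : ℝ) + 1)⁻¹ * ((n : ℝ) + 1) := mul_le_mul_of_nonneg_left h1 (by positivity)
    _ = 1 := inv_mul_cancel₀ h3.ne'

theorem norm_avg_mul_sub {μ : AA G} (h : ‖μ‖ ≤ 1) (n : ℕ) :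
    ‖avg μ n * μ - avg μ n‖ ≤ 2 / ((n : ℝ) + 1) := by
  have h1 : avg μ n * μ - avg μ n = ((((n : ℝ) + 1)⁻¹ : ℝ) : ℂ) • (μ ^ (n + 1) - 1) := by
    rw [← geom_sum_mul, avg, mul_sub, mul_one, smul_sub, smul_mul_assoc]
  rw [h1, norm_smul, Complex.norm_real, Real.norm_of_nonneg (by positivity)]
  have h2 : ‖μ ^ (n + 1) - 1‖ ≤ 2 := by
    refine (norm_sub_le _ _).trans ?_
    rw [norm_one]
    have := (norm_pow_le μ (n + 1)).trans (pow_le_one₀ (norm_nonneg _) h)
    linarith
  rw [div_eq_inv_mul]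
  exact mul_le_mul_of_nonneg_left h2 (by positivity)

theorem avg_comm (μ : AA G) (n : ℕ) : μ * avg μ n = avg μ n * μ := by
  rw [avg, mul_smul_comm, smul_mul_assoc, Finset.mul_sum, Finset.sum_mul]
  congr 1
  refine Finset.sum_congr rfl fun j _ => ?_
  rw [← pow_succ, ← pow_succ']

theorem tendsto_avg_mul_sub {μ : AA G} (h : ‖μ‖ ≤ 1) :
    Tendsto (fun n => avg μ n * μ - avg μ n) atTop (𝓝 0) := by
  rw [tendsto_zero_iff_norm_tendsto_zero]
  refine squeeze_zero (fun n => norm_nonneg _) (norm_avg_mul_sub h) ?_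
  have := (tendsto_one_div_add_atTop_nhds_zero_nat (𝕜 := ℝ)).const_mul 2
  simp only [mul_zero] at this
  refine this.congr (fun n => by ring)

theorem tendsto_pow_mul_avg {μ : AA G} (h : ‖μ‖ ≤ 1) (j : ℕ) :
    Tendsto (fun n => μ ^ j * avg μ n - avg μ n) atTop (𝓝 0) := by
  induction j with
  | zero => simp
  | succ j ih =>
    have h1 := (ih.const_mul μ).add (tendsto_avg_mul_sub h)
    simp only [mul_zero, add_zero] at h1
    refine h1.congr (fun n => ?_)
    rw [← avg_comm, pow_succ', mul_sub, mul_assoc]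
    abel

theorem tendsto_avg_mul_avg {μ : AA G} (h : ‖μ‖ ≤ 1) (k : ℕ) :
    Tendsto (fun n => avg μ k * avg μ n - avg μ n) atTop (𝓝 0) := by
  have h1 : ∀ n, avg μ k * avg μ n - avg μ n = ((((k : ℝ) + 1)⁻¹ : ℝ) : ℂ) •
      ∑ j ∈ Finset.range (k + 1), (μ ^ j * avg μ n - avg μ n) := by
    intro n
    rw [Finset.sum_sub_distrib, ← Finset.sum_mul, smul_sub, Finset.sum_const, Finset.card_range]
    congr 1
    · rw [← smul_mul_assoc]; rfl
    · rw [← Nat.cast_smul_eq_nsmul ℂ, smul_smul]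
      have h3 : ((((k : ℝ) + 1)⁻¹ : ℝ) : ℂ) * ((k + 1 : ℕ) : ℂ) = 1 := by
        push_cast
        have : ((k : ℂ) + 1) ≠ 0 := by exact_mod_cast Nat.succ_ne_zero k
        field_simp
      rw [h3, one_smul]
  simp only [h1]
  have h2 : Tendsto (fun n => ∑ j ∈ Finset.range (k + 1), (μ ^ j * avg μ n - avg μ n)) atTop
      (𝓝 (∑ j ∈ Finset.range (k + 1), (0 : AA G))) :=
    tendsto_finsetSum _ fun j _ => tendsto_pow_mul_avg h j
  simpa using h2.const_smul ((((k : ℝ) + 1)⁻¹ : ℝ) : ℂ)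

/-- a functional invariant under right multiplication by `μ` is invariant under averages -/
theorem apply_avg_of_inv {μ : AA G} (F : DD G) (a : AA G) (h : ∀ b, F (b * μ) = F b) (n : ℕ) :
    F (a * avg μ n) = F a := by
  have h1 : ∀ j, F (a * μ ^ j) = F a := by
    intro j
    induction j with
    | zero => simp
    | succ j ih => rw [pow_succ, ← mul_assoc, h, ih]
  rw [avg, mul_smul_comm, Finset.mul_sum, map_smul, map_sum]
  simp only [h1]
  rw [Finset.sum_const, Finset.card_range, nsmul_eq_mul, smul_eq_mul, ← mul_assoc]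
  have h3 : ((((n : ℝ) + 1)⁻¹ : ℝ) : ℂ) * ((n + 1 : ℕ) : ℂ) = 1 := by
    push_cast
    have : ((n : ℂ) + 1) ≠ 0 := by exact_mod_cast Nat.succ_ne_zero n
    field_simp
  rw [h3, one_mul]

/-- full support -/
def Wt (μ : AA G) : Prop :=
  ∀ h : G, ∃ c : ℝ, 0 < c ∧ ∀ φ : DD G, (∀ x, 0 ≤ (φ (delta x)).re) →
    c * (φ (delta h)).re ≤ (φ μ).re

/-- the measures used below -/
structure Good (μ : AA G) : Prop where
  nrm : ‖μ‖ ≤ 1
  pos : Pos μ
  wt : Wt μ
  shp : sharp μ = μ

theorem eps_mul (a b : AA G) : eps (a * b) = eps a * eps b := by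
  have h := bilin_ext (G := G)
    (B := (ContinuousLinearMap.compL ℂ (AA G) (AA G) ℂ eps).comp (mulA (G := G)))
    (C := (ContinuousLinearMap.mul ℂ ℂ).bilinearComp (eps : DD G) eps)
    (fun x y => by
      simp) a b
  exact h

theorem Pos.eps {p : AA G} (hp : Pos p) : eps p = 1 := by
  have h1 := hp CI.eps 1 (fun x => by simp)
  have h2 := hp (-CI.eps) (-1) (fun x => by simp)
  have h3 := hp (Complex.I • CI.eps) 0 (fun x => by simp)
  have h4 := hp ((-Complex.I) • CI.eps) 0 (fun x => by simp)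
  simp at h2 h3 h4
  apply Complex.ext
  · simp; linarith
  · simp; linarith

theorem sharp_pow {μ : AA G} (h : sharp μ = μ) (n : ℕ) : sharp (μ ^ n) = μ ^ n := by
  induction n with
  | zero => simp [one_def']
  | succ n ih => rw [pow_succ, sharp_mul, ih, h, ← pow_succ', ← pow_succ]

theorem sharp_avg {μ : AA G} (h : sharp μ = μ) (n : ℕ) : sharp (avg μ n) = avg μ n := by
  rw [avg, map_smul, map_sum]
  congr 1
  exact Finset.sum_congr rfl fun j _ => sharp_pow h j

theorem maj {p : AA G} (hp : Pos p) (φ ψ : DD G) (h : ∀ x, ‖φ (delta x)‖ ≤ (ψ (delta x)).re) :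
    ‖φ p‖ ≤ (ψ p).re := by
  by_cases h0 : φ p = 0
  · rw [h0, norm_zero]
    exact hp ψ 0 (fun x => (norm_nonneg _).trans (h x))
  · set θ : ℂ := conj (φ p) / (‖φ p‖ : ℂ) with hθ
    have hn : (‖φ p‖ : ℂ) ≠ 0 := by
      exact_mod_cast (norm_pos_iff.2 h0).ne'
    have hθn : ‖θ‖ = 1 := by
      rw [hθ, norm_div, RCLike.norm_conj, Complex.norm_real, norm_norm, div_self]
      exact (norm_pos_iff.2 h0).ne'
    have h1 : θ * φ p = (‖φ p‖ : ℂ) := by
      rw [hθ, div_mul_eq_mul_div, mul_comm, Complex.mul_conj, Complex.normSq_eq_norm_sq]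
      push_cast
      field_simp
    have h2 := hp (ψ - θ • φ) 0 (fun x => by
      simp only [_root_.sub_apply, _root_.smul_apply, smul_eq_mul, Complex.sub_re]
      have h3 : (θ * φ (delta x)).re ≤ ‖θ * φ (delta x)‖ := Complex.re_le_norm _
      rw [norm_mul, hθn, one_mul] at h3
      linarith [h x])
    simp only [_root_.sub_apply, _root_.smul_apply, smul_eq_mul, Complex.sub_re,
      h1, Complex.ofReal_re] at h2
    linarith

theorem exists_good [Countable G] : ∃ μ : AA G, Good μ := by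
  classical
  let _ := Encodable.ofCountable G
  obtain ⟨w, hw, c, hc, -⟩ := posSumOfEncodable (ε := (1 : ℝ)) one_pos G
  have hcpos : 0 < c := lt_of_lt_of_le (hw 1) (le_hasSum hc 1 (fun x _ => (hw x).le))
  set r : G → ℝ := fun x => w x / c with hr
  have hrpos : ∀ x, 0 < r x := fun x => div_pos (hw x) hcpos
  have hrs : HasSum r 1 := by
    have := hc.div_const c
    rwa [div_self hcpos.ne'] at this
  have hnorm : ∀ x, ‖((r x : ℂ) • delta x : AA G)‖ = r x := by
    intro x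
    rw [norm_smul, norm_delta, mul_one, Complex.norm_real, Real.norm_of_nonneg (hrpos x).le]
  have hsum : Summable (fun x => ((r x : ℂ) • delta x : AA G)) := by
    apply Summable.of_norm
    simp only [hnorm]
    exact hrs.summable
  set μ0 : AA G := ∑' x, (r x : ℂ) • delta x with hμ0
  have hφ : ∀ φ : DD G, HasSum (fun x => r x * (φ (delta x)).re) (φ μ0).re := by
    intro φ
    have h1 := hsum.hasSum.mapL φ
    have h2 := Complex.hasSum_re h1
    have h3 : (fun x => r x * (φ (delta x)).re) = fun x => (φ ((r x : ℂ) • delta x)).re := by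
      funext x
      rw [map_smul, smul_eq_mul, Complex.re_ofReal_mul]
    rw [h3]
    exact h2
  have hn0 : ‖μ0‖ ≤ 1 := by
    apply tsum_of_norm_bounded hrs
    intro x; rw [hnorm]
  have hp0 : Pos μ0 := by
    intro φ c' h
    have h1 : HasSum (fun x => r x * c') (1 * c') := hrs.mul_right c'
    rw [one_mul] at h1
    exact hasSum_le (fun x => mul_le_mul_of_nonneg_left (h x) (hrpos x).le) h1 (hφ φ)
  have hw0 : Wt μ0 := by
    intro h
    refine ⟨r h, hrpos h, fun φ hφ0 => ?_⟩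
    exact le_hasSum (hφ φ) h (fun x _ => mul_nonneg (hrpos x).le (hφ0 x))
  refine ⟨(1 / 2 : ℂ) • (μ0 + sharp μ0), ?_, ?_, ?_, ?_⟩
  · rw [norm_smul]
    have := norm_sharp_le μ0
    have h2 := norm_add_le μ0 (sharp μ0)
    norm_num
    linarith
  · intro φ c' h
    have h1 := hp0 φ c' h
    have h2 := hp0 (φ.comp sharp) c' (fun x => by simpa using h x⁻¹)
    rw [map_smul, map_add, smul_eq_mul]
    have h3 : ((1 / 2 : ℂ) * (φ μ0 + φ (sharp μ0))).re
        = ((φ μ0).re + (φ (sharp μ0)).re) / 2 := by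
      have : (1 / 2 : ℂ) = ((1 / 2 : ℝ) : ℂ) := by push_cast; rfl
      rw [this, Complex.re_ofReal_mul, Complex.add_re]; ring
    rw [h3]
    have h4 : (φ.comp sharp) μ0 = φ (sharp μ0) := rfl
    rw [h4] at h2
    linarith
  · intro h
    obtain ⟨c', hc', hh⟩ := hw0 h
    refine ⟨c' / 2, by positivity, fun φ hφ0 => ?_⟩
    have h1 := hh φ hφ0
    have h2 := hp0 (φ.comp sharp) 0 (fun x => by simpa using hφ0 x⁻¹)
    rw [map_smul, map_add, smul_eq_mul]
    have h3 : ((1 / 2 : ℂ) * (φ μ0 + φ (sharp μ0))).re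
        = ((φ μ0).re + (φ (sharp μ0)).re) / 2 := by
      have : (1 / 2 : ℂ) = ((1 / 2 : ℝ) : ℂ) := by push_cast; rfl
      rw [this, Complex.re_ofReal_mul, Complex.add_re]; ring
    rw [h3]
    have h4 : (φ.comp sharp) μ0 = φ (sharp μ0) := rfl
    rw [h4] at h2
    linarith
  · rw [map_smul, map_add, sharp_sharp, add_comm]

end avg

section ulim

/-- ultralimit of a bounded sequence of functionals -/
theorem exists_ulim {X : Type*} [NormedAddCommGroup X] [NormedSpace ℂ X] (Φ : ℕ → X →L[ℂ] ℂ)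
    (C : ℝ) (h : ∀ N x, ‖Φ N x‖ ≤ C * ‖x‖) :
    ∃ Ψ : X →L[ℂ] ℂ, (∀ x, ‖Ψ x‖ ≤ C * ‖x‖) ∧
      ∀ x, Tendsto (fun N => Φ N x) (hyperfilter ℕ : Filter ℕ) (𝓝 (Ψ x)) := by
  classical
  have h1 : ∀ x, ∃ y, Tendsto (fun N => Φ N x) (hyperfilter ℕ : Filter ℕ) (𝓝 y) := by
    intro x
    have hK : IsCompact (Metric.closedBall (0 : ℂ) (C * ‖x‖)) := isCompact_closedBall _ _
    have h2 : ((hyperfilter ℕ).map (fun N => Φ N x) : Filter ℂ)
        ≤ 𝓟 (Metric.closedBall (0 : ℂ) (C * ‖x‖)) := by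
      rw [le_principal_iff]
      refine Filter.mem_map.2 (Filter.univ_mem' (fun n => ?_))
      rw [Set.mem_preimage, Metric.mem_closedBall, dist_zero_right]
      exact h n x
    obtain ⟨y, -, hy⟩ := hK.ultrafilter_le_nhds ((hyperfilter ℕ).map (fun N => Φ N x)) h2
    exact ⟨y, hy⟩
  choose L hL using h1
  have hb : ∀ x, ‖L x‖ ≤ C * ‖x‖ := by
    intro x
    have := (hL x).norm
    exact le_of_tendsto this (Eventually.of_forall fun N => h N x)
  let Llin : X →ₗ[ℂ] ℂ :=
    { toFun := L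
      map_add' := fun x y => by
        have h3 := (hL x).add (hL y)
        have h4 : Tendsto (fun N => Φ N (x + y)) (hyperfilter ℕ : Filter ℕ) (𝓝 (L x + L y)) := by
          refine h3.congr (fun N => ?_)
          rw [map_add]
        exact tendsto_nhds_unique (hL (x + y)) h4
      map_smul' := fun c x => by
        have h3 := (hL x).const_smul c
        have h4 : Tendsto (fun N => Φ N (c • x)) (hyperfilter ℕ : Filter ℕ) (𝓝 (c • L x)) := by
          refine h3.congr (fun N => ?_)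
          rw [map_smul]
        exact tendsto_nhds_unique (hL (c • x)) h4 }
  exact ⟨Llin.mkContinuous C hb, hb, hL⟩

end ulim

end Pool.Agent.Y74.CI
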