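import Mathlib
import Pool.Agent.H937R3.EllOne

/-!
# Bounded functions as functionals on the group algebra `ℓ¹(G)`

Basic operators: pointwise multiplication, translation, conjugation, inversion.
-/

set_option autoImplicit false

open Filter Topology
open H937R3
open scoped ComplexConjugate

namespace Pool.Agent.Y74.CI

/-- the group algebra `ℓ¹(G)` -/
def AA (G : Type*) : Type _ := EllOne G

section basic

variable {G : Type*} [DecidableEq G] [Group G]

noncomputable instance instNR : NormedRing (AA G) := inferInstanceAs (NormedRing (EllOne G))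

noncomputable instance instNA : NormedAlgebra ℂ (AA G) :=
  inferInstanceAs (NormedAlgebra ℂ (EllOne G))

noncomputable instance instCompleteA : CompleteSpace (AA G) :=
  inferInstanceAs (CompleteSpace (L1 G))

/-- point mass -/
noncomputable def delta (x : G) : AA G := EllOne.delta x

/-- the linear map given by a bounded family -/
noncomputable def lift {E : Type*} [NormedAddCommGroup E] [NormedSpace ℂ E] [CompleteSpace E]
    (v : G → E) (C : ℝ) (hv : ∀ x, ‖v x‖ ≤ C) : AA G →L[ℂ] E :=
  (L1.lift v C hv : L1 G →L[ℂ] E)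

@[simp] theorem norm_delta (x : G) : ‖(delta x : AA G)‖ = 1 := EllOne.norm_delta x

@[simp] theorem delta_mul_delta (x y : G) : (delta x * delta y : AA G) = delta (x * y) :=
  EllOne.delta_mul_delta x y

theorem one_def' : (1 : AA G) = delta 1 := rfl

@[simp] theorem lift_delta {E : Type*} [NormedAddCommGroup E] [NormedSpace ℂ E] [CompleteSpace E]
    (v : G → E) (C : ℝ) (hv : ∀ x, ‖v x‖ ≤ C) (x : G) :
    lift v C hv (delta x) = v x := L1.lift_delta v C hv x

theorem norm_lift_le' {E : Type*} [NormedAddCommGroup E] [NormedSpace ℂ E] [CompleteSpace E]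
    (v : G → E) (C : ℝ) (hC : 0 ≤ C) (hv : ∀ x, ‖v x‖ ≤ C) :
    ‖(lift v C hv : AA G →L[ℂ] E)‖ ≤ C :=
  L1.norm_lift_le v C hC hv

theorem ext_D {E : Type*} [NormedAddCommGroup E] [NormedSpace ℂ E] {S T : AA G →L[ℂ] E}
    (h : ∀ x, S (delta x) = T (delta x)) : S = T :=
  L1.clm_ext (G := G) (S := (S : L1 G →L[ℂ] E)) (T := (T : L1 G →L[ℂ] E)) h

/-- bounded functions on `G`, as functionals on `ℓ¹(G)` -/
abbrev DD (G : Type*) [DecidableEq G] [Group G] : Type _ := AA G →L[ℂ] ℂ

theorem ext_app {E : Type*} [NormedAddCommGroup E] [NormedSpace ℂ E] {S T : AA G →L[ℂ] E}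
    (h : ∀ x, S (delta x) = T (delta x)) (a : AA G) : S a = T a := by
  rw [ext_D h]

theorem norm_le_of_delta {E : Type*} [NormedAddCommGroup E] [NormedSpace ℂ E] [CompleteSpace E]
    (T : AA G →L[ℂ] E) (C : ℝ) (hC : 0 ≤ C) (h : ∀ x, ‖T (delta x)‖ ≤ C) : ‖T‖ ≤ C := by
  have : T = lift (fun x => T (delta x)) C h := by
    apply ext_D
    intro x
    rw [lift_delta]
  rw [this]
  exact norm_lift_le' _ _ hC _

theorem norm_apply_delta_le {E : Type*} [NormedAddCommGroup E] [NormedSpace ℂ E]
    (T : AA G →L[ℂ] E) (x : G) : ‖T (delta x)‖ ≤ ‖T‖ := by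
  have := T.le_opNorm (delta x)
  rwa [norm_delta, mul_one] at this

/-- the augmentation -/
noncomputable def eps : DD G := lift (fun _ => (1 : ℂ)) 1 (fun _ => by simp)

@[simp] theorem eps_delta (x : G) : eps (delta x : AA G) = 1 := by
  simp [eps]

theorem norm_eps_le : ‖(eps : DD G)‖ ≤ 1 :=
  norm_le_of_delta _ _ zero_le_one (fun x => by simp)

/-- pointwise multiplication by a bounded function -/
noncomputable def Mop (w : DD G) : AA G →L[ℂ] AA G :=
  lift (fun x => w (delta x) • delta x) ‖w‖ (fun x => by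
    rw [norm_smul, norm_delta, mul_one]
    exact norm_apply_delta_le w x)

@[simp] theorem Mop_delta (w : DD G) (x : G) : Mop w (delta x) = w (delta x) • delta x := by
  simp [Mop]

theorem norm_Mop_le (w : DD G) : ‖Mop w‖ ≤ ‖w‖ :=
  norm_lift_le' _ _ (norm_nonneg _) _

theorem norm_Mop_apply_le (w : DD G) (a : AA G) : ‖Mop w a‖ ≤ ‖w‖ * ‖a‖ :=
  ((Mop w).le_opNorm a).trans (mul_le_mul_of_nonneg_right (norm_Mop_le w) (norm_nonneg _))

theorem Mop_add (w w' : DD G) (a : AA G) : Mop (w + w') a = Mop w a + Mop w' a := by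
  have : Mop (w + w') = Mop w + Mop w' := by
    apply ext_D; intro x
    simp [add_smul]
  rw [this]; rfl

theorem Mop_smul (c : ℂ) (w : DD G) (a : AA G) : Mop (c • w) a = c • Mop w a := by
  have : Mop (c • w) = c • Mop w := by
    apply ext_D; intro x
    simp [mul_smul]
  rw [this]; rfl

theorem Mop_sub (w w' : DD G) (a : AA G) : Mop (w - w') a = Mop w a - Mop w' a := by
  have : Mop (w - w') = Mop w - Mop w' := by
    apply ext_D; intro x
    simp [sub_smul]
  rw [this]; rfl

theorem Mop_eps (a : AA G) : Mop eps a = a := by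
  have : Mop (eps : DD G) = ContinuousLinearMap.id ℂ _ := by
    apply ext_D; intro x
    simp
  rw [this]; rfl

/-- pointwise product of bounded functions -/
noncomputable def prodD (w v : DD G) : DD G := w.comp (Mop v)

@[simp] theorem prodD_delta (w v : DD G) (x : G) :
    prodD w v (delta x) = w (delta x) * v (delta x) := by
  simp [prodD, mul_comm]

theorem Mop_Mop (w v : DD G) (a : AA G) : Mop w (Mop v a) = Mop (prodD w v) a := by
  have : (Mop w).comp (Mop v) = Mop (prodD w v) := by
    apply ext_D; intro x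
    simp [smul_smul, mul_comm]
  rw [← this]; rfl

theorem prodD_apply (w v : DD G) (a : AA G) : prodD w v a = w (Mop v a) := rfl

/-- complex conjugate of a bounded function -/
noncomputable def conjD (w : DD G) : DD G :=
  lift (fun x => conj (w (delta x))) ‖w‖ (fun x => by
    rw [RCLike.norm_conj]
    exact norm_apply_delta_le w x)

@[simp] theorem conjD_delta (w : DD G) (x : G) : conjD w (delta x) = conj (w (delta x)) := by
  simp [conjD]

theorem conjD_conjD (w : DD G) : conjD (conjD w) = w := by
  apply ext_D; intro x; simp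

/-- inversion -/
noncomputable def sharp : AA G →L[ℂ] AA G :=
  lift (fun x => delta x⁻¹) 1 (fun x => by simp)

@[simp] theorem sharp_delta (x : G) : sharp (delta x : AA G) = delta x⁻¹ := by
  simp [sharp]

@[simp] theorem sharp_sharp (a : AA G) : sharp (sharp a) = a := by
  have : (sharp : AA G →L[ℂ] AA G).comp sharp = ContinuousLinearMap.id ℂ _ := by
    apply ext_D; intro x
    simp
  calc sharp (sharp a) = ((sharp : AA G →L[ℂ] AA G).comp sharp) a := rfl
    _ = a := by rw [this]; rfl

theorem norm_sharp_le (a : AA G) : ‖sharp a‖ ≤ ‖a‖ := by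
  have h : ‖(sharp : AA G →L[ℂ] AA G)‖ ≤ 1 :=
    norm_le_of_delta _ _ zero_le_one (fun x => by simp)
  have := (sharp : AA G →L[ℂ] AA G).le_opNorm a
  nlinarith [norm_nonneg a]

/-- extensionality for bilinear maps -/
theorem bilin_ext {E : Type*} [NormedAddCommGroup E] [NormedSpace ℂ E]
    {B C : AA G →L[ℂ] AA G →L[ℂ] E}
    (h : ∀ x y, B (delta x) (delta y) = C (delta x) (delta y)) (a b : AA G) :
    B a b = C a b := by
  have : B = C := by
    apply ext_D; intro x
    apply ext_D; intro y
    exact h x y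
  rw [this]

noncomputable abbrev mulA : AA G →L[ℂ] AA G →L[ℂ] AA G :=
  ContinuousLinearMap.mul ℂ (AA G)

theorem sharp_mul (a b : AA G) : sharp (a * b) = sharp b * sharp a := by
  have h := bilin_ext (G := G)
    (B := (ContinuousLinearMap.compL ℂ (AA G) (AA G) (AA G) sharp).comp (mulA (G := G)))
    (C := ((mulA (G := G)).flip.bilinearComp (sharp : AA G →L[ℂ] AA G) sharp))
    (fun x y => by simp) a b
  exact h

/-- right translate `(Rt z a)(b) = z(b * a)` -/
noncomputable def Rt (z : DD G) : AA G →L[ℂ] DD G :=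
  (ContinuousLinearMap.compL ℂ (AA G) (AA G) ℂ z).comp mulA.flip

@[simp] theorem Rt_apply (z : DD G) (a b : AA G) : Rt z a b = z (b * a) := rfl

/-- left translate `(Lt z a)(b) = z(a * b)` -/
noncomputable def Lt (z : DD G) : AA G →L[ℂ] DD G :=
  (ContinuousLinearMap.compL ℂ (AA G) (AA G) ℂ z).comp mulA

@[simp] theorem Lt_apply (z : DD G) (a b : AA G) : Lt z a b = z (a * b) := rfl

theorem norm_Rt_le (z : DD G) (y : G) : ‖Rt z (delta y)‖ ≤ ‖z‖ := by
  apply norm_le_of_delta _ _ (norm_nonneg _)
  intro x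
  rw [Rt_apply, delta_mul_delta]
  exact norm_apply_delta_le z _

theorem norm_Lt_le (z : DD G) (y : G) : ‖Lt z (delta y)‖ ≤ ‖z‖ := by
  apply norm_le_of_delta _ _ (norm_nonneg _)
  intro x
  rw [Lt_apply, delta_mul_delta]
  exact norm_apply_delta_le z _

theorem norm_Lt_eq (z : DD G) (y : G) : ‖Lt z (delta y)‖ = ‖z‖ := by
  apply le_antisymm (norm_Lt_le z y)
  have h : Lt (Lt z (delta y)) (delta y⁻¹) = z := by
    apply ext_D; intro x
    simp [delta_mul_delta]
  conv_lhs => rw [← h]
  exact norm_Lt_le _ _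

theorem Mop_mul_delta (z : DD G) (a : AA G) (k : G) :
    Mop z (a * delta k) = Mop (Rt z (delta k)) a * delta k := by
  have := ext_D (G := G) (S := (Mop z).comp (mulA.flip (delta k)))
    (T := (mulA.flip (delta k)).comp (Mop (Rt z (delta k)))) (fun x => by simp)
  exact congrArg (fun T => T a) this

end basic

end Pool.Agent.Y74.CI
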