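import Pool.Agent.Y74.CI.Data2
import Pool.Agent.Y74.CI.Abs2

/-!
# Closed cofinite ideals of `ℓ¹(G)` are idempotent
-/

set_option autoImplicit false
set_option linter.unusedSectionVars false
set_option linter.unusedVariables false

open Filter Topology
open scoped ComplexConjugate

namespace Pool.Agent.Y74.CI

variable {G : Type*} [DecidableEq G] [Group G]

theorem left_data {μ : AA G} (hμ : Good μ) {I : Submodule ℂ (AA G)} (hI : Ideal2 I) {m : ℕ}
    {a : Fin m → AA G} {b : Fin m → DD G} (hs : DSys I a b) :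
    ∃ (u0 : DD G) (n : ℕ → ℕ) (r e : ℕ → AA G) (C : ℝ), 0 ≤ C ∧ InW I u0 ∧
      (∀ x : G, conj (u0 (delta x)) = u0 (delta x⁻¹)) ∧ (∀ k, k ≤ n k) ∧
      Tendsto (fun k => ‖r k‖) atTop (𝓝 0) ∧ (∀ k, e k ∈ I) ∧
      (∀ k, 1 - e k = Mop (conjD u0) (avg μ (n k)) + r k) ∧ (∀ k, ‖e k‖ ≤ C) ∧
      (∀ ε : ℝ, 0 < ε → ∃ K, ∀ k ≥ K, ∃ L, ∀ l ≥ L, ‖e k * (1 - e l)‖ ≤ ε) := by
  classical
  obtain ⟨M, hM⟩ := exists_mean (G := G) hμ.nrm
  obtain ⟨u0, h0, h1⟩ := exists_u0 hμ M hM hI hs
  have hstar := u0_star hμ M hM hI hs u0 h0 h1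
  set v := conjD u0 with hv
  set e0 : ℕ → AA G := fun n => 1 - Mop v (avg μ n) with he0
  have hb0 : ∀ i, Tendsto (fun n => ‖b i (e0 n)‖) (hyperfilter ℕ : Filter ℕ) (𝓝 0) := by
    intro i
    rw [← tendsto_zero_iff_norm_tendsto_zero]
    have h2 := (hM (prodD (b i) v)).const_sub (b i 1)
    rw [h1 _ (hs.van i), sub_self] at h2
    refine h2.congr (fun n => ?_)
    rw [he0]
    simp only
    rw [map_sub, prodD_apply]
  have hex : ∀ k : ℕ, ∃ n ≥ k, ∀ i, ‖b i (e0 n)‖ < 1 / ((k : ℝ) + 1) := by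
    intro k
    have h2 : ∀ᶠ n in (hyperfilter ℕ : Filter ℕ), ∀ i, ‖b i (e0 n)‖ < 1 / ((k : ℝ) + 1) :=
      eventually_all.2 fun i => (hb0 i).eventually (gt_mem_nhds (by positivity))
    have h3 : ∀ᶠ n in (hyperfilter ℕ : Filter ℕ), k ≤ n := hyper_le (eventually_ge_atTop k)
    obtain ⟨n, hn1, hn2⟩ := (h2.and h3).exists
    exact ⟨n, hn2, hn1⟩
  choose n hn hnb using hex
  set r : ℕ → AA G := fun k => ∑ i, b i (e0 (n k)) • a i with hr
  set A : ℝ := ∑ i, ‖a i‖ with hA
  have hA0 : 0 ≤ A := Finset.sum_nonneg fun i _ => norm_nonneg _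
  have hrn : ∀ k, ‖r k‖ ≤ 1 / ((k : ℝ) + 1) * A := by
    intro k
    rw [hr, hA, Finset.mul_sum]
    refine (norm_sum_le _ _).trans (Finset.sum_le_sum fun i _ => ?_)
    rw [norm_smul]
    exact mul_le_mul_of_nonneg_right (hnb k i).le (norm_nonneg _)
  have hr0 : Tendsto (fun k => ‖r k‖) atTop (𝓝 0) := by
    refine squeeze_zero (fun k => norm_nonneg _) hrn ?_
    have := tendsto_one_div_add_atTop_nhds_zero_nat (𝕜 := ℝ) |>.mul_const A
    simpa using this
  have hrA : ∀ k, ‖r k‖ ≤ A := by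
    intro k
    refine (hrn k).trans ?_
    have h2 : 1 / ((k : ℝ) + 1) ≤ 1 := by
      rw [div_le_one (by positivity)]
      linarith [(Nat.cast_nonneg k : (0 : ℝ) ≤ k)]
    calc 1 / ((k : ℝ) + 1) * A ≤ 1 * A := mul_le_mul_of_nonneg_right h2 hA0
      _ = A := one_mul A
  have he0n : ∀ n, ‖e0 n‖ ≤ 1 + ‖v‖ := by
    intro n
    rw [he0]
    refine (norm_sub_le _ _).trans ?_
    rw [norm_one]
    have h2 := norm_Mop_apply_le v (avg μ n)
    have h3 := mul_le_mul_of_nonneg_left (norm_avg_le hμ.nrm n) (norm_nonneg v)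
    linarith
  set e : ℕ → AA G := fun k => e0 (n k) - r k with he
  set C : ℝ := 1 + ‖v‖ + A with hC
  have hC0 : 0 ≤ C := by positivity
  have hen : ∀ k, ‖e k‖ ≤ C := by
    intro k
    exact (norm_sub_le _ _).trans (add_le_add (he0n _) (hrA k))
  have heq : ∀ k, 1 - e k = Mop v (avg μ (n k)) + r k := by
    intro k
    rw [he, he0]
    simp only
    abel
  refine ⟨u0, n, r, e, C, hC0, h0, hstar, hn, hr0, fun k => hs.red (e0 (n k)), heq, hen, ?_⟩
  intro ε hε
  obtain ⟨N, hN⟩ := P1_main hμ M hM hI hs u0 h0 h1 (ε / 3) (by positivity)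
  have hev1 : ∀ᶠ k in atTop, ‖r k‖ < ε / 3 / (1 + C) :=
    hr0.eventually (gt_mem_nhds (by positivity))
  obtain ⟨K1, hK1⟩ := eventually_atTop.1 hev1
  refine ⟨max N K1, fun k hk => ?_⟩
  obtain ⟨L0, hL0⟩ := hN (n k) (((le_max_left _ _).trans hk).trans (hn k))
  refine ⟨max L0 K1, fun l hl => ?_⟩
  have h2 := hL0 (n l) (((le_max_left _ _).trans hl).trans (hn l))
  have h3 := hK1 k ((le_max_right _ _).trans hk)
  have h4 := hK1 l ((le_max_right _ _).trans hl)
  have h5 : e k * (1 - e l) = e0 (n k) * Mop v (avg μ (n l)) + e0 (n k) * r l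
      - r k * (1 - e l) := by
    have h6 : e k = e0 (n k) - r k := rfl
    rw [h6, sub_mul]
    congr 1
    rw [heq l, mul_add]
  have h7 : ‖1 - e l‖ ≤ 1 + C := by
    refine (norm_sub_le _ _).trans ?_
    rw [norm_one]
    linarith [hen l]
  have h8 : ‖e0 (n k)‖ ≤ 1 + C := (he0n _).trans (by rw [hC]; linarith)
  have hpos : 0 < 1 + C := by linarith
  have h9 : (1 + C) * (ε / 3 / (1 + C)) = ε / 3 := by field_simp
  rw [h5]
  calc _ ≤ ‖e0 (n k) * Mop v (avg μ (n l))‖ + ‖e0 (n k) * r l‖ + ‖r k * (1 - e l)‖ :=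
        (norm_sub_le _ _).trans (add_le_add (norm_add_le _ _) le_rfl)
    _ ≤ ε / 3 + (1 + C) * (ε / 3 / (1 + C)) + (ε / 3 / (1 + C)) * (1 + C) := by
        refine add_le_add (add_le_add h2 ?_) ?_
        · exact (norm_mul_le _ _).trans (mul_le_mul h8 h4.le (norm_nonneg _) hpos.le)
        · exact (norm_mul_le _ _).trans
            (mul_le_mul h3.le h7 (norm_nonneg _) (by positivity))
    _ = ε := by rw [mul_comm (ε / 3 / (1 + C)), h9]; ring

/-- Every element of a closed two-sided ideal of finite codimension in `ℓ¹(G)` is a sum of two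
products of elements of the ideal. -/
theorem main_factor [Countable G] (I : Submodule ℂ (AA G)) (hI : Ideal2 I)
    (hfd : FiniteDimensional ℂ (AA G ⧸ I)) :
    ∀ f ∈ I, ∃ b ∈ I, ∃ c ∈ I, ∃ b' ∈ I, ∃ c' ∈ I, f = b * c + b' * c' := by
  classical
  obtain ⟨μ, hμ⟩ := exists_good (G := G)
  obtain ⟨m, a, b, hb1, hb2⟩ := exists_dual_system I hI.closed
  have hs : DSys I a b := ⟨hb1, hb2⟩
  -- the mirrored ideal
  let J : Submodule ℂ (AA G) := I.comap (sharp : AA G →L[ℂ] AA G).toLinearMap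
  have memJ : ∀ f, f ∈ J ↔ sharp f ∈ I := fun f => Iff.rfl
  have hJ : Ideal2 J :=
    { closed := hI.closed.preimage (sharp : AA G →L[ℂ] AA G).continuous
      left := fun f hf c => by
        rw [memJ] at hf ⊢
        rw [sharp_mul]
        exact hI.right _ hf _
      right := fun f hf c => by
        rw [memJ] at hf ⊢
        rw [sharp_mul]
        exact hI.left _ hf _ }
  have hsJ : DSys J (fun i => sharp (a i)) (fun i => (b i).comp sharp) :=
    { van := fun i f hf => hb1 i _ ((memJ f).1 hf)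
      red := fun f => by
        rw [memJ, map_sub, map_sum]
        simp only [map_smul, sharp_sharp]
        exact hb2 (sharp f) }
  obtain ⟨u0, n, r, e, C, hC0, h0, hstar, hn, hr0, heI, heq, hen, P1⟩ := left_data hμ hI hs
  obtain ⟨u0', n', r', e', C', hC0', h0', hstar', hn', hr0', heI', heq', hen', P1'⟩ :=
    left_data hμ hJ hsJ
  have hsharpMop : ∀ (w : DD G) (c : AA G), sharp (Mop w c) = Mop (w.comp sharp) (sharp c) := by
    intro w c
    have : (sharp : AA G →L[ℂ] AA G).comp (Mop w) = (Mop (w.comp sharp)).comp sharp := by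
      apply ext_D; intro x; simp
    exact congrArg (fun T => T c) this
  have hconj : (conjD u0').comp sharp = conjD (u0'.comp sharp) := by
    apply ext_D; intro x; simp
  have hw' : InW I (u0'.comp sharp) := by
    intro f hf
    change u0' (sharp f) = 0
    apply h0'
    rw [memJ, sharp_sharp]
    exact hf
  have heq'' : ∀ k, 1 - sharp (e' k)
      = Mop (conjD (u0'.comp sharp)) (avg μ (n' k)) + sharp (r' k) := by
    intro k
    have h1 := congrArg (sharp : AA G →L[ℂ] AA G) (heq' k)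
    rw [map_sub, map_add, hsharpMop, hconj, sharp_avg hμ.shp] at h1
    have h2 : sharp (1 : AA G) = 1 := by rw [one_def', sharp_delta, inv_one]
    rw [h2] at h1
    exact h1
  refine factor I hI.closed hI.left hI.right e (fun k => sharp (e' k)) (max C C')
    (hC0.trans (le_max_left _ _)) (fun k => (hen k).trans (le_max_left _ _))
    (fun k => (norm_sharp_le _).trans ((hen' k).trans (le_max_right _ _))) heI
    (fun k => (memJ _).1 (heI' k)) P1 ?_ ?_
  · intro ε hε
    obtain ⟨K, hK⟩ := P1' ε hε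
    refine ⟨K, fun k hk => ?_⟩
    obtain ⟨L, hL⟩ := hK k hk
    refine ⟨L, fun l hl => ?_⟩
    have h1 : (1 - sharp (e' l)) * sharp (e' k) = sharp (e' k * (1 - e' l)) := by
      have h2 : sharp (1 : AA G) = 1 := by rw [one_def', sharp_delta, inv_one]
      rw [sharp_mul, map_sub, h2]
    rw [h1]
    exact (norm_sharp_le _).trans (hL l hl)
  · intro f hf ε hε
    obtain ⟨N, hN⟩ := P2_main hμ hI hs u0 h0 hstar (u0'.comp sharp) hw' f hf (ε / 2)
      (by positivity)
    -- error terms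
    set B : ℝ := 1 + max C C' with hB
    have hBpos : 0 < B := by
      have := hC0.trans (le_max_left C C')
      rw [hB]; linarith
    have hlim : Tendsto (fun k => ‖r' k‖ * ‖f‖ * B + (‖conjD (u0'.comp sharp)‖ * ‖f‖) * ‖r k‖)
        atTop (𝓝 (0 * ‖f‖ * B + (‖conjD (u0'.comp sharp)‖ * ‖f‖) * 0)) :=
      ((hr0'.mul_const _).mul_const _).add (hr0.const_mul _)
    have hz : (0 * ‖f‖ * B + (‖conjD (u0'.comp sharp)‖ * ‖f‖) * 0) = 0 := by ring
    rw [hz] at hlim
    obtain ⟨K, hK⟩ := eventually_atTop.1 (hlim.eventually (gt_mem_nhds (half_pos hε)))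
    refine ⟨max N K, fun k hk => ?_⟩
    have h1 := hN (n' k) (((le_max_left _ _).trans hk).trans (hn' k)) (n k)
      (((le_max_left _ _).trans hk).trans (hn k))
    have h2 := hK k ((le_max_right _ _).trans hk)
    have h3 : (1 - sharp (e' k)) * f * (1 - e k)
        = Mop (conjD (u0'.comp sharp)) (avg μ (n' k)) * f * Mop (conjD u0) (avg μ (n k))
          + sharp (r' k) * f * (1 - e k)
          + Mop (conjD (u0'.comp sharp)) (avg μ (n' k)) * f * r k := by
      rw [heq'' k, add_mul, add_mul]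
      rw [heq k, mul_add, mul_add]
      abel
    have h4 : ‖1 - e k‖ ≤ B := by
      refine (norm_sub_le _ _).trans ?_
      rw [norm_one, hB]
      linarith [(hen k).trans (le_max_left C C')]
    have h5 : ‖sharp (r' k) * f * (1 - e k)‖ ≤ ‖r' k‖ * ‖f‖ * B := by
      refine (norm_mul_le _ _).trans (mul_le_mul ?_ h4 (norm_nonneg _) (by positivity))
      exact (norm_mul_le _ _).trans
        (mul_le_mul_of_nonneg_right (norm_sharp_le _) (norm_nonneg _))
    have h6 : ‖Mop (conjD (u0'.comp sharp)) (avg μ (n' k)) * f * r k‖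
        ≤ (‖conjD (u0'.comp sharp)‖ * ‖f‖) * ‖r k‖ := by
      refine (norm_mul_le _ _).trans (mul_le_mul_of_nonneg_right ?_ (norm_nonneg _))
      refine (norm_mul_le _ _).trans (mul_le_mul_of_nonneg_right ?_ (norm_nonneg _))
      refine (norm_Mop_apply_le _ _).trans ?_
      calc _ ≤ ‖conjD (u0'.comp sharp)‖ * 1 :=
            mul_le_mul_of_nonneg_left (norm_avg_le hμ.nrm _) (norm_nonneg _)
        _ = _ := mul_one _
    rw [h3]
    calc _ ≤ ‖Mop (conjD (u0'.comp sharp)) (avg μ (n' k)) * f * Mop (conjD u0) (avg μ (n k))‖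
          + ‖sharp (r' k) * f * (1 - e k)‖
          + ‖Mop (conjD (u0'.comp sharp)) (avg μ (n' k)) * f * r k‖ :=
          (norm_add_le _ _).trans (add_le_add (norm_add_le _ _) le_rfl)
      _ ≤ ε / 2 + ‖r' k‖ * ‖f‖ * B + (‖conjD (u0'.comp sharp)‖ * ‖f‖) * ‖r k‖ :=
          add_le_add (add_le_add h1 h5) h6
      _ ≤ ε := by linarith

end Pool.Agent.Y74.CI
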