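import Mathlib
import Pool.Agent.Y74.CI.Main

/-!
# The factorisation theorem stated with `lp (fun _ : G => ℂ) 1`
-/

set_option autoImplicit false

open Filter Topology
open H937R3

namespace Pool.Agent.Y74.CI

section bridge

variable {G : Type*} [DecidableEq G] [Group G]

/-- the identity map between the two copies of `ℓ¹(G)` -/
noncomputable def idEquiv (G : Type*) [DecidableEq G] [Group G] :
    (lp (fun _ : G => ℂ) 1) ≃ₗ[ℂ] AA G where
  toFun := fun f => (show AA G from f)
  invFun := fun f => (show lp (fun _ : G => ℂ) 1 from f)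
  map_add' := fun _ _ => rfl
  map_smul' := fun _ _ => rfl
  left_inv := fun _ => rfl
  right_inv := fun _ => rfl

theorem idEquiv_mul (f g : AA G) (x : G) :
    (show lp (fun _ : G => ℂ) 1 from (f * g : AA G)) x
      = ∑' y : G, (show lp (fun _ : G => ℂ) 1 from f) y
          * (show lp (fun _ : G => ℂ) 1 from g) (y⁻¹ * x) := rfl

end bridge

theorem bridge {G : Type*} [Group G] [Countable G]
    (I : Submodule ℂ (lp (fun _ : G => ℂ) 1))
    (hcl : IsClosed (I : Set (lp (fun _ : G => ℂ) 1)))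
    (hR : ∀ a ∈ I, ∀ b c : lp (fun _ : G => ℂ) 1,
      (∀ x : G, (c : G → ℂ) x = ∑' y : G, (a : G → ℂ) y * (b : G → ℂ) (y⁻¹ * x)) → c ∈ I)
    (hL : ∀ a ∈ I, ∀ b c : lp (fun _ : G => ℂ) 1,
      (∀ x : G, (c : G → ℂ) x = ∑' y : G, (b : G → ℂ) y * (a : G → ℂ) (y⁻¹ * x)) → c ∈ I)
    (hfd : FiniteDimensional ℂ ((lp (fun _ : G => ℂ) 1) ⧸ I)) :
    Submodule.span ℂ
        {d : lp (fun _ : G => ℂ) 1 |
          ∃ a ∈ I, ∃ b ∈ I, ∀ x : G,
            (d : G → ℂ) x = ∑' y : G, (a : G → ℂ) y * (b : G → ℂ) (y⁻¹ * x)} = I := by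
  classical
  apply le_antisymm
  · rw [Submodule.span_le]
    rintro d ⟨a, ha, b, hb, hd⟩
    exact hR a ha b d hd
  · -- transfer to the ring
    let e := idEquiv G
    let J : Submodule ℂ (AA G) := I.map e.toLinearMap
    have memJ : ∀ f : AA G, f ∈ J ↔ (show lp (fun _ : G => ℂ) 1 from f) ∈ I := by
      intro f
      constructor
      · rintro ⟨g, hg, rfl⟩
        exact hg
      · intro h
        exact ⟨_, h, rfl⟩
    have hJcl : IsClosed (J : Set (AA G)) := by
      have : (J : Set (AA G)) = (show Set (AA G) from (I : Set (lp (fun _ : G => ℂ) 1))) := by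
        ext f
        exact memJ f
      rw [this]
      exact hcl
    have hJ : Ideal2 J :=
      { closed := hJcl
        left := fun f hf a => by
          rw [memJ] at hf ⊢
          exact hL _ hf (show lp (fun _ : G => ℂ) 1 from a) _ (fun x => rfl)
        right := fun f hf a => by
          rw [memJ] at hf ⊢
          exact hR _ hf (show lp (fun _ : G => ℂ) 1 from a) _ (fun x => rfl) }
    have hfdJ : FiniteDimensional ℂ (AA G ⧸ J) := by
      let q : ((lp (fun _ : G => ℂ) 1) ⧸ I) ≃ₗ[ℂ] (AA G ⧸ J) :=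
        Submodule.Quotient.equiv I J e rfl
      exact q.finiteDimensional
    intro f hf
    obtain ⟨b, hb, c, hc, b', hb', c', hc', hfe⟩ :=
      main_factor J hJ hfdJ (show AA G from f) ((memJ _).2 hf)
    have h1 : (show lp (fun _ : G => ℂ) 1 from (b * c : AA G)) ∈ Submodule.span ℂ
        {d : lp (fun _ : G => ℂ) 1 |
          ∃ a ∈ I, ∃ b ∈ I, ∀ x : G,
            (d : G → ℂ) x = ∑' y : G, (a : G → ℂ) y * (b : G → ℂ) (y⁻¹ * x)} :=
      Submodule.subset_span ⟨_, (memJ _).1 hb, _, (memJ _).1 hc, fun x => rfl⟩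
    have h2 : (show lp (fun _ : G => ℂ) 1 from (b' * c' : AA G)) ∈ Submodule.span ℂ
        {d : lp (fun _ : G => ℂ) 1 |
          ∃ a ∈ I, ∃ b ∈ I, ∀ x : G,
            (d : G → ℂ) x = ∑' y : G, (a : G → ℂ) y * (b : G → ℂ) (y⁻¹ * x)} :=
      Submodule.subset_span ⟨_, (memJ _).1 hb', _, (memJ _).1 hc', fun x => rfl⟩
    have h3 := Submodule.add_mem _ h1 h2
    have h4 : f = (show lp (fun _ : G => ℂ) 1 from (b * c : AA G))
        + (show lp (fun _ : G => ℂ) 1 from (b' * c' : AA G)) := hfe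
    rw [h4]
    exact h3

end Pool.Agent.Y74.CI
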