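import Mathlib

set_option autoImplicit false

namespace Pool.Agent.Y74.CI

/-- bounded coordinates in a finite-dimensional subspace -/
theorem exists_coords {X : Type*} [NormedAddCommGroup X] [NormedSpace ℂ X] (E : Submodule ℂ X)
    [FiniteDimensional ℂ E] :
    ∃ (m : ℕ) (b : Fin m → X) (c : E →ₗ[ℂ] (Fin m → ℂ)) (K : ℝ), 0 ≤ K ∧ (∀ i, b i ∈ E) ∧
      (∀ w : E, (w : X) = ∑ i, c w i • b i) ∧ (∀ (w : E) i, ‖c w i‖ ≤ K * ‖w‖) ∧
      Continuous c := by
  set B := Module.finBasis ℂ E with hB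
  set T : E →L[ℂ] (Fin (Module.finrank ℂ E) → ℂ) :=
    LinearMap.toContinuousLinearMap (B.equivFun : E →ₗ[ℂ] (Fin (Module.finrank ℂ E) → ℂ)) with hT
  have hTapp : ∀ w, T w = B.equivFun w := fun w => rfl
  refine ⟨Module.finrank ℂ E, fun i => (B i : X), T, ‖T‖, ContinuousLinearMap.opNorm_nonneg T,
    fun i => (B i).2, ?_, ?_, T.continuous⟩
  · intro w
    have h := congrArg Subtype.val (B.sum_equivFun w)
    simp only [Submodule.coe_sum, Submodule.coe_smul] at h
    exact h.symm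
  · intro w i
    exact (norm_le_pi_norm (T w) i).trans (T.le_opNorm w)

end Pool.Agent.Y74.CI
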