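import Pool.Agent.Y74.CI.MPV
import Pool.Agent.Y74.CI.Coord

/-!
# Limits of two-sided smoothing functionals are constant
-/

set_option autoImplicit false
set_option linter.unusedSectionVars false
set_option linter.unusedVariables false

open Filter Topology
open scoped ComplexConjugate

namespace Pool.Agent.Y74.CI

variable {G : Type*} [DecidableEq G] [Group G]

theorem Rt_Rt (e : DD G) (a b : AA G) : Rt (Rt e a) b = Rt e (b * a) := by
  ext c
  simp [mul_assoc]

theorem Rt_one (e : DD G) : Rt e (delta 1) = e := by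
  apply ext_D
  intro x
  simp

theorem hyper_le : (hyperfilter ℕ : Filter ℕ) ≤ atTop := by
  rw [← Nat.cofinite_eq_atTop]
  exact hyperfilter_le_cofinite

theorem exists_Lam (p q : ℕ → AA G) (φ : ℕ → DD G) (hp : ∀ N, ‖p N‖ ≤ 1) (hq : ∀ N, ‖q N‖ ≤ 1)
    (hφ : ∀ N, ‖φ N‖ ≤ 1) :
    ∃ Lam : DD G →ₗ[ℂ] DD G, (∀ z u, ‖Lam z u‖ ≤ ‖z‖ * ‖u‖) ∧
      ∀ z u, Tendsto (fun N => φ N (Mop z (p N) * u * q N)) (hyperfilter ℕ : Filter ℕ)
        (𝓝 (Lam z u)) := by
  classical
  have h1 : ∀ z : DD G, ∃ Ψ : DD G, (∀ u, ‖Ψ u‖ ≤ ‖z‖ * ‖u‖) ∧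
      ∀ u, Tendsto (fun N => φ N (Mop z (p N) * u * q N)) (hyperfilter ℕ : Filter ℕ)
        (𝓝 (Ψ u)) := by
    intro z
    obtain ⟨Ψ, h2, h3⟩ := exists_ulim
      (fun N => (φ N).comp (((mulA (G := G)).flip (q N)).comp (mulA (Mop z (p N))))) ‖z‖ (by
        intro N u
        change ‖φ N (Mop z (p N) * u * q N)‖ ≤ ‖z‖ * ‖u‖
        calc ‖φ N (Mop z (p N) * u * q N)‖ ≤ ‖φ N‖ * ‖Mop z (p N) * u * q N‖ :=
              (φ N).le_opNorm _
          _ ≤ 1 * (‖Mop z (p N)‖ * ‖u‖ * ‖q N‖) := by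
              apply mul_le_mul (hφ N) _ (norm_nonneg _) zero_le_one
              exact (norm_mul_le _ _).trans
                (mul_le_mul_of_nonneg_right (norm_mul_le _ _) (norm_nonneg _))
          _ ≤ 1 * ((‖z‖ * 1) * ‖u‖ * 1) := by
              apply mul_le_mul_of_nonneg_left _ zero_le_one
              apply mul_le_mul _ (hq N) (norm_nonneg _) (by positivity)
              apply mul_le_mul_of_nonneg_right _ (norm_nonneg _)
              exact (norm_Mop_apply_le z (p N)).trans
                (mul_le_mul_of_nonneg_left (hp N) (norm_nonneg _))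
          _ = ‖z‖ * ‖u‖ := by ring)
    exact ⟨Ψ, h2, h3⟩
  choose L hLb hL using h1
  refine ⟨{ toFun := L, map_add' := ?_, map_smul' := ?_ }, hLb, hL⟩
  · intro z z'
    ext u
    have h2 := (hL z u).add (hL z' u)
    refine tendsto_nhds_unique (hL (z + z') u) (h2.congr fun N => ?_)
    rw [Mop_add, add_mul, add_mul, map_add]
  · intro c z
    ext u
    have h2 := (hL z u).const_smul c
    refine tendsto_nhds_unique (hL (c • z) u) (h2.congr fun N => ?_)
    rw [Mop_smul, smul_mul_assoc, smul_mul_assoc, map_smul]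

theorem Lam_right {μ : AA G} (p q : ℕ → AA G) (φ : ℕ → DD G) (hp : ∀ N, ‖p N‖ ≤ 1)
    (hφ : ∀ N, ‖φ N‖ ≤ 1) (hqμ : Tendsto (fun N => μ * q N - q N) atTop (𝓝 0))
    (Lam : DD G →ₗ[ℂ] DD G)
    (hLam : ∀ z u, Tendsto (fun N => φ N (Mop z (p N) * u * q N)) (hyperfilter ℕ : Filter ℕ)
        (𝓝 (Lam z u))) (z : DD G) (u : AA G) : Lam z (u * μ) = Lam z u := by
  have h1 := (hLam z (u * μ)).sub (hLam z u)
  have h2 : Tendsto (fun N => φ N (Mop z (p N) * (u * μ) * q N) - φ N (Mop z (p N) * u * q N))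
      (hyperfilter ℕ : Filter ℕ) (𝓝 0) := by
    rw [tendsto_zero_iff_norm_tendsto_zero]
    have h3 : Tendsto (fun N => (‖z‖ * ‖u‖) * ‖μ * q N - q N‖) (hyperfilter ℕ : Filter ℕ)
        (𝓝 0) := by
      have := ((tendsto_zero_iff_norm_tendsto_zero.1 hqμ).mono_left hyper_le).const_mul
        (‖z‖ * ‖u‖)
      simpa using this
    refine squeeze_zero (fun N => norm_nonneg _) (fun N => ?_) h3
    rw [← map_sub]
    have h4 : Mop z (p N) * (u * μ) * q N - Mop z (p N) * u * q N
        = Mop z (p N) * u * (μ * q N - q N) := by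
      simp only [mul_sub, mul_assoc]
    rw [h4]
    calc ‖φ N (Mop z (p N) * u * (μ * q N - q N))‖
        ≤ ‖φ N‖ * ‖Mop z (p N) * u * (μ * q N - q N)‖ := (φ N).le_opNorm _
      _ ≤ 1 * ((‖Mop z (p N)‖ * ‖u‖) * ‖μ * q N - q N‖) := by
          apply mul_le_mul (hφ N) _ (norm_nonneg _) zero_le_one
          exact (norm_mul_le _ _).trans
            (mul_le_mul_of_nonneg_right (norm_mul_le _ _) (norm_nonneg _))
      _ ≤ 1 * (((‖z‖ * 1) * ‖u‖) * ‖μ * q N - q N‖) := by
          apply mul_le_mul_of_nonneg_left _ zero_le_one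
          apply mul_le_mul_of_nonneg_right _ (norm_nonneg _)
          apply mul_le_mul_of_nonneg_right _ (norm_nonneg _)
          exact (norm_Mop_apply_le z (p N)).trans
            (mul_le_mul_of_nonneg_left (hp N) (norm_nonneg _))
      _ = _ := by ring
  have h5 := tendsto_nhds_unique h1 h2
  exact sub_eq_zero.1 h5

/-- the left harmonic function attached to `e` -/
theorem Lam_left {μ : AA G} (p q : ℕ → AA G) (φ : ℕ → DD G) (hp : ∀ N, ‖p N‖ ≤ 1)
    (hq : ∀ N, ‖q N‖ ≤ 1)
    (hφ : ∀ N, ‖φ N‖ ≤ 1) (hpμ : Tendsto (fun N => p N * μ - p N) atTop (𝓝 0))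
    (Lam : DD G →ₗ[ℂ] DD G) (hLb : ∀ z u, ‖Lam z u‖ ≤ ‖z‖ * ‖u‖)
    (hLam : ∀ z u, Tendsto (fun N => φ N (Mop z (p N) * u * q N)) (hyperfilter ℕ : Filter ℕ)
        (𝓝 (Lam z u))) (e : DD G) :
    ∃ F : DD G, (∀ g, F (delta g) = Lam (Rt e (delta g)) (delta g)) ∧
      ∀ a, F (μ * a) = F a := by
  have hb : ∀ g, ‖Lam (Rt e (delta g)) (delta g)‖ ≤ ‖e‖ := by
    intro g
    refine (hLb _ _).trans ?_
    rw [norm_delta, mul_one]
    exact norm_Rt_le e g
  set F : DD G := lift (fun g => Lam (Rt e (delta g)) (delta g)) ‖e‖ hb with hF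
  have hFd : ∀ g, F (delta g) = Lam (Rt e (delta g)) (delta g) := fun g => by
    rw [hF, lift_delta]
  refine ⟨F, hFd, ?_⟩
  have key : ∀ g, F (μ * delta g) = F (delta g) := by
    intro g
    obtain ⟨X, -, hX⟩ := exists_ulim
      (fun N => (φ N).comp (((mulA (G := G)).flip (delta g * q N)).comp
        ((Mop (Rt e (delta g))).comp (mulA (p N))))) ‖Rt e (delta g)‖ (by
        intro N b
        change ‖φ N (Mop (Rt e (delta g)) (p N * b) * (delta g * q N))‖ ≤ _
        calc ‖φ N (Mop (Rt e (delta g)) (p N * b) * (delta g * q N))‖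
            ≤ ‖φ N‖ * ‖Mop (Rt e (delta g)) (p N * b) * (delta g * q N)‖ := (φ N).le_opNorm _
          _ ≤ 1 * ((‖Rt e (delta g)‖ * (1 * ‖b‖)) * (1 * 1)) := by
              apply mul_le_mul (hφ N) _ (norm_nonneg _) zero_le_one
              refine (norm_mul_le _ _).trans ?_
              apply mul_le_mul _ _ (norm_nonneg _) (by positivity)
              · refine (norm_Mop_apply_le _ _).trans ?_
                apply mul_le_mul_of_nonneg_left _ (norm_nonneg _)
                exact (norm_mul_le _ _).trans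
                  (mul_le_mul_of_nonneg_right (hp N) (norm_nonneg _))
              · refine (norm_mul_le _ _).trans ?_
                rw [norm_delta]
                exact mul_le_mul_of_nonneg_left (hq N) zero_le_one
          _ = _ := by ring)
    have hX' : ∀ b, Tendsto (fun N => φ N (Mop (Rt e (delta g)) (p N * b) * (delta g * q N)))
        (hyperfilter ℕ : Filter ℕ) (𝓝 (X b)) := hX
    have h1 : ∀ k, X (delta k) = F (delta (k * g)) := by
      intro k
      rw [hFd]
      refine tendsto_nhds_unique (hX' (delta k)) ?_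
      refine (hLam (Rt e (delta (k * g))) (delta (k * g))).congr (fun N => ?_)
      congr 1
      rw [Mop_mul_delta, Rt_Rt, delta_mul_delta, ← delta_mul_delta k g]
      simp only [mul_assoc]
    have h2 : Rt F (delta g) = X := by
      apply ext_D
      intro k
      rw [h1, Rt_apply, delta_mul_delta]
    have h3 : X μ = X 1 := by
      have h4 := (hX' μ).sub (hX' 1)
      have h5 : Tendsto (fun N => φ N (Mop (Rt e (delta g)) (p N * μ) * (delta g * q N))
          - φ N (Mop (Rt e (delta g)) (p N * 1) * (delta g * q N)))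
          (hyperfilter ℕ : Filter ℕ) (𝓝 0) := by
        rw [tendsto_zero_iff_norm_tendsto_zero]
        have h6 : Tendsto (fun N => ‖Rt e (delta g)‖ * ‖p N * μ - p N‖)
            (hyperfilter ℕ : Filter ℕ) (𝓝 0) := by
          have := ((tendsto_zero_iff_norm_tendsto_zero.1 hpμ).mono_left hyper_le).const_mul
            ‖Rt e (delta g)‖
          simpa using this
        refine squeeze_zero (fun N => norm_nonneg _) (fun N => ?_) h6
        rw [← map_sub, ← sub_mul, ← map_sub, mul_one]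
        calc ‖φ N (Mop (Rt e (delta g)) (p N * μ - p N) * (delta g * q N))‖
            ≤ ‖φ N‖ * ‖Mop (Rt e (delta g)) (p N * μ - p N) * (delta g * q N)‖ :=
              (φ N).le_opNorm _
          _ ≤ 1 * ((‖Rt e (delta g)‖ * ‖p N * μ - p N‖) * (1 * 1)) := by
              apply mul_le_mul (hφ N) _ (norm_nonneg _) zero_le_one
              refine (norm_mul_le _ _).trans ?_
              apply mul_le_mul (norm_Mop_apply_le _ _) _ (norm_nonneg _) (by positivity)
              refine (norm_mul_le _ _).trans ?_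
              rw [norm_delta]
              exact mul_le_mul_of_nonneg_left (hq N) zero_le_one
          _ = _ := by ring
      exact sub_eq_zero.1 (tendsto_nhds_unique h4 h5)
    calc F (μ * delta g) = Rt F (delta g) μ := rfl
      _ = X 1 := by rw [h2, h3]
      _ = F (delta g) := by rw [one_def', h1, one_mul]
  intro a
  have h7 : Lt F μ = F := ext_D (fun g => key g)
  calc F (μ * a) = Lt F μ a := rfl
    _ = F a := by rw [h7]

theorem core {μ : AA G} (hμ : Good μ) (p q : ℕ → AA G) (φ : ℕ → DD G) (hp : ∀ N, ‖p N‖ ≤ 1)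
    (hq : ∀ N, ‖q N‖ ≤ 1)
    (hφ : ∀ N, ‖φ N‖ ≤ 1) (hpμ : Tendsto (fun N => p N * μ - p N) atTop (𝓝 0))
    (hqμ : Tendsto (fun N => μ * q N - q N) atTop (𝓝 0))
    (Lam : DD G →ₗ[ℂ] DD G) (hLb : ∀ z u, ‖Lam z u‖ ≤ ‖z‖ * ‖u‖)
    (hLam : ∀ z u, Tendsto (fun N => φ N (Mop z (p N) * u * q N)) (hyperfilter ℕ : Filter ℕ)
        (𝓝 (Lam z u)))
    (E : Submodule ℂ (DD G)) [FiniteDimensional ℂ E]
    (hE : ∀ z ∈ E, ∀ y, Rt z (delta y) ∈ E) (z : DD G) (hz : z ∈ E) (x y : G) :
    Lam (Rt z (delta y)) (delta x) = Lam z 1 := by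
  classical
  have hR := Lam_right p q φ hp hφ hqμ Lam hLam
  obtain ⟨m, B, cc, K, hK0, hBE, hBsum, hcoord, -⟩ := exists_coords E
  have hex := fun i => Lam_left p q φ hp hq hφ hpμ Lam hLb hLam (B i)
  choose F hFd hFμ using hex
  have step2 : ∀ z ∈ E, ∀ h y : G, Lam (Rt z (delta (h * y))) (delta h)
      = Lam (Rt z (delta y)) 1 := by
    intro z hz h y
    set Φ : DD G := Lt (Lam (Rt z (delta (h * y)))) (delta h) - Lam (Rt z (delta y)) with hΦ
    have hΦμ : ∀ b, Φ (b * μ) = Φ b := by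
      intro b
      rw [hΦ, _root_.sub_apply, _root_.sub_apply, Lt_apply, Lt_apply, ← mul_assoc, hR, hR]
    have hΦavg : ∀ n, Φ (avg μ n) = Φ 1 := by
      intro n
      have := apply_avg_of_inv Φ 1 hΦμ n
      rwa [one_mul] at this
    have hex2 := fun i => var hμ (F i) (hFμ i) h
    choose S C hSd hSn using hex2
    set Kz : ℝ := K * ‖z‖ with hKz
    have hKz0 : 0 ≤ Kz := by positivity
    have hpt : ∀ g, ‖Φ (delta g)‖ ≤ Kz * ∑ i, ‖F i (delta (h * g)) - F i (delta g)‖ := by
      intro g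
      set w : E := ⟨Rt z (delta (g⁻¹ * y)), hE z hz _⟩ with hw
      have hwn : ‖w‖ ≤ ‖z‖ := norm_Rt_le z _
      have hsum : Rt z (delta (g⁻¹ * y)) = ∑ i, cc w i • B i := hBsum w
      have hexp : ∀ k : G, Lam (Rt z (delta (k * (g⁻¹ * y)))) (delta k)
          = ∑ i, cc w i * F i (delta k) := by
        intro k
        have h1 : Rt z (delta (k * (g⁻¹ * y))) = ∑ i, cc w i • Rt (B i) (delta k) := by
          rw [← delta_mul_delta, ← Rt_Rt, hsum]
          ext b
          simp [Rt_apply]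
        rw [h1, map_sum]
        simp only [map_smul]
        rw [ContinuousLinearMap.sum_apply]
        refine Finset.sum_congr rfl fun i _ => ?_
        rw [_root_.smul_apply, smul_eq_mul, hFd]
      have e1 : Φ (delta g) = ∑ i, cc w i * (F i (delta (h * g)) - F i (delta g)) := by
        have h2 := hexp (h * g)
        have h3 := hexp g
        have h4 : h * g * (g⁻¹ * y) = h * y := by group
        have h5 : g * (g⁻¹ * y) = y := by group
        rw [h4] at h2
        rw [h5] at h3
        rw [hΦ, _root_.sub_apply, Lt_apply, delta_mul_delta, h2, h3, ← Finset.sum_sub_distrib]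
        refine Finset.sum_congr rfl fun i _ => by ring
      rw [e1]
      refine (norm_sum_le _ _).trans ?_
      rw [Finset.mul_sum]
      refine Finset.sum_le_sum fun i _ => ?_
      rw [norm_mul]
      refine mul_le_mul_of_nonneg_right ?_ (norm_nonneg _)
      exact (hcoord w i).trans (mul_le_mul_of_nonneg_left hwn hK0)
    have hbound : ∀ (δ : ℝ), 0 < δ → ∀ n : ℕ, ‖Φ 1‖ ≤
        Kz * ((∑ i : Fin m, δ) + (∑ i, C i / δ) * (1 / ((n : ℝ) + 1))) := by
      intro δ hδ n
      set ψ : DD G := (Kz : ℂ) • ∑ i, ((δ : ℂ) • eps + ((1 / δ : ℝ) : ℂ) • S i) with hψ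
      have h1 := maj (pos_avg hμ.pos n) Φ ψ (fun g => by
        refine (hpt g).trans ?_
        rw [hψ, _root_.smul_apply, ContinuousLinearMap.sum_apply, smul_eq_mul,
          Complex.re_ofReal_mul, Complex.re_sum]
        refine mul_le_mul_of_nonneg_left (Finset.sum_le_sum fun i _ => ?_) hKz0
        rw [_root_.add_apply, _root_.smul_apply, _root_.smul_apply, eps_delta, hSd, smul_eq_mul,
          smul_eq_mul, mul_one, Complex.add_re, Complex.ofReal_re, Complex.re_ofReal_mul,
          Complex.ofReal_re]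
        set t := ‖F i (delta (h * g)) - F i (delta g)‖ with ht
        have ht0 : 0 ≤ t := norm_nonneg _
        have h6 : 0 ≤ (t - δ) ^ 2 / δ := by positivity
        have h7 : (t - δ) ^ 2 / δ = 1 / δ * t ^ 2 - 2 * t + δ := by
          field_simp
          ring
        linarith)
      rw [hΦavg] at h1
      refine h1.trans ?_
      rw [hψ, _root_.smul_apply, ContinuousLinearMap.sum_apply, smul_eq_mul,
        Complex.re_ofReal_mul, Complex.re_sum, Finset.sum_mul, ← Finset.sum_add_distrib]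
      refine mul_le_mul_of_nonneg_left (Finset.sum_le_sum fun i _ => ?_) hKz0
      rw [_root_.add_apply, _root_.smul_apply, _root_.smul_apply, (pos_avg hμ.pos n).eps,
        smul_eq_mul, smul_eq_mul, mul_one, Complex.add_re, Complex.ofReal_re,
        Complex.re_ofReal_mul]
      have h8 := mul_le_mul_of_nonneg_left (hSn i n) (by positivity : (0 : ℝ) ≤ 1 / δ)
      have h9 : 1 / δ * (C i / ((n : ℝ) + 1)) = C i / δ * (1 / ((n : ℝ) + 1)) := by
        field_simp
      linarith
    have hzero : ‖Φ 1‖ ≤ 0 := by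
      have h1 : ∀ δ : ℝ, 0 < δ → ‖Φ 1‖ ≤ Kz * (∑ i : Fin m, δ) := by
        intro δ hδ
        have h2 : Tendsto (fun n : ℕ => Kz * ((∑ i : Fin m, δ)
            + (∑ i, C i / δ) * (1 / ((n : ℝ) + 1)))) atTop
            (𝓝 (Kz * ((∑ i : Fin m, δ) + (∑ i, C i / δ) * 0))) :=
          ((tendsto_one_div_add_atTop_nhds_zero_nat.const_mul _).const_add _).const_mul _
        have h3 := ge_of_tendsto h2 (Eventually.of_forall (hbound δ hδ))
        simpa using h3
      have h4 : Tendsto (fun δ : ℝ => Kz * (∑ i : Fin m, δ)) (𝓝[>] 0) (𝓝 0) := by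
        have : Continuous (fun δ : ℝ => Kz * (∑ i : Fin m, δ)) := by fun_prop
        have h5 := (this.tendsto 0).mono_left (nhdsWithin_le_nhds (s := Set.Ioi (0 : ℝ)))
        simpa using h5
      exact ge_of_tendsto h4 (by
        filter_upwards [self_mem_nhdsWithin] with δ hδ
        exact h1 δ hδ)
    have h10 : Φ 1 = 0 := norm_le_zero_iff.1 hzero
    rw [hΦ, _root_.sub_apply, Lt_apply, mul_one] at h10
    exact sub_eq_zero.1 h10
  have step3 : ∀ z ∈ E, ∀ x : G, Lam z (delta x) = Lam z 1 := by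
    intro z hz x
    refine mp hμ (Lam z) (E.map Lam) (fun x => ?_) (fun a => hR z a) x
    refine ⟨Rt z (delta x⁻¹), hE z hz _, ?_⟩
    apply ext_D
    intro g
    have h1 := step2 z hz (x * g) (x * g)⁻¹
    have h2 := step2 z hz g (g⁻¹ * x⁻¹)
    rw [mul_inv_cancel, Rt_one] at h1
    have h3 : g * (g⁻¹ * x⁻¹) = x⁻¹ := by group
    rw [h3] at h2
    rw [Lt_apply, delta_mul_delta, h1, h2, mul_inv_rev]
  have h1 := step2 z hz y⁻¹ y
  rw [inv_mul_cancel, Rt_one] at h1
  rw [step3 _ (hE z hz y) x, ← h1, step3 z hz]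

end Pool.Agent.Y74.CI
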