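import Mathlib

set_option autoImplicit false

namespace Pool.Agent.Y74.CI

/-- a dual system for a closed subspace of finite codimension -/
theorem exists_dual_system {X : Type*} [NormedAddCommGroup X] [NormedSpace ℂ X]
    (I : Submodule ℂ X) (hI : IsClosed (I : Set X)) [FiniteDimensional ℂ (X ⧸ I)] :
    ∃ (m : ℕ) (a : Fin m → X) (b : Fin m → (X →L[ℂ] ℂ)), (∀ i, ∀ f ∈ I, b i f = 0) ∧
      ∀ f, f - ∑ i, b i f • a i ∈ I := by
  have : IsClosed (I : Set X) := hI
  set B := Module.finBasis ℂ (X ⧸ I) with hB
  have hcont : ∀ i, Continuous (fun f : X => B.coord i (I.mkQ f)) := by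
    intro i
    have h1 : Continuous (B.coord i) := LinearMap.continuous_of_finiteDimensional _
    have h2 : Continuous (I.mkQ) := continuous_quot_mk
    exact h1.comp h2
  have hex : ∀ i, ∃ x : X, I.mkQ x = B i := fun i => I.mkQ_surjective (B i)
  choose a ha using hex
  refine ⟨_, a, fun i => ⟨(B.coord i).comp I.mkQ, hcont i⟩, ?_, ?_⟩
  · intro i f hf
    have : I.mkQ f = 0 := by simpa using hf
    change B.coord i (I.mkQ f) = 0
    rw [this, map_zero]
  · intro f
    have h1 : I.mkQ (f - ∑ i, B.coord i (I.mkQ f) • a i) = 0 := by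
      rw [map_sub, map_sum]
      simp only [map_smul, ha]
      have := B.sum_repr (I.mkQ f)
      simp only [Module.Basis.coord_apply]
      rw [this, sub_self]
    exact (Submodule.Quotient.mk_eq_zero I).1 h1

end Pool.Agent.Y74.CI
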