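import Pool.Agent.Y74.CI.KL
import Pool.Agent.Y74.CI.DualSys

/-!
# The space spanned by products of coefficient functions, the vector `u₀`
-/

set_option autoImplicit false
set_option linter.unusedSectionVars false
set_option linter.unusedVariables false

open Filter Topology
open scoped ComplexConjugate

namespace Pool.Agent.Y74.CI

variable {G : Type*} [DecidableEq G] [Group G]

/-- functionals vanishing on `I` -/
def InW (I : Submodule ℂ (AA G)) (φ : DD G) : Prop := ∀ f ∈ I, φ f = 0

/-- two-sided ideals -/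
structure Ideal2 (I : Submodule ℂ (AA G)) : Prop where
  closed : IsClosed (I : Set (AA G))
  left : ∀ f ∈ I, ∀ a, a * f ∈ I
  right : ∀ f ∈ I, ∀ a, f * a ∈ I

/-- a dual system -/
structure DSys (I : Submodule ℂ (AA G)) {m : ℕ} (a : Fin m → AA G) (b : Fin m → DD G) : Prop where
  van : ∀ i, InW I (b i)
  red : ∀ f, f - ∑ i, b i f • a i ∈ I

theorem InW.Rt {I : Submodule ℂ (AA G)} (hI : Ideal2 I) {φ : DD G} (h : InW I φ) (a : AA G) :
    InW I (CI.Rt φ a) := fun f hf => h _ (hI.right f hf a)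

theorem InW.Lt {I : Submodule ℂ (AA G)} (hI : Ideal2 I) {φ : DD G} (h : InW I φ) (a : AA G) :
    InW I (CI.Lt φ a) := fun f hf => h _ (hI.left f hf a)

theorem InW.expand {I : Submodule ℂ (AA G)} {m : ℕ} {a : Fin m → AA G} {b : Fin m → DD G}
    (hs : DSys I a b) {φ : DD G} (h : InW I φ) (f : AA G) : φ f = ∑ i, φ (a i) * b i f := by
  have h1 := h _ (hs.red f)
  rw [map_sub, map_sum, sub_eq_zero] at h1
  rw [h1]
  refine Finset.sum_congr rfl fun i _ => ?_
  rw [map_smul, smul_eq_mul, mul_comm]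

theorem InW.eq_sum {I : Submodule ℂ (AA G)} {m : ℕ} {a : Fin m → AA G} {b : Fin m → DD G}
    (hs : DSys I a b) {φ : DD G} (h : InW I φ) : φ = ∑ i, φ (a i) • b i := by
  ext f
  rw [h.expand hs f]
  simp

/-- the span of the products `b i * conj (b j)` and the constants -/
noncomputable def EE {m : ℕ} (b : Fin m → DD G) : Submodule ℂ (DD G) :=
  Submodule.span ℂ (Set.range (fun ij : Fin m × Fin m => prodD (b ij.1) (conjD (b ij.2)))
    ∪ {eps})

instance EE_fd {m : ℕ} (b : Fin m → DD G) : FiniteDimensional ℂ (EE b) :=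
  FiniteDimensional.span_of_finite ℂ ((Set.finite_range _).union (Set.finite_singleton _))

theorem eps_mem_EE {m : ℕ} (b : Fin m → DD G) : (eps : DD G) ∈ EE b :=
  Submodule.subset_span (Or.inr rfl)

theorem prod_mem_EE {I : Submodule ℂ (AA G)} {m : ℕ} {a : Fin m → AA G} {b : Fin m → DD G}
    (hs : DSys I a b) {w w' : DD G} (hw : InW I w) (hw' : InW I w') :
    prodD w (conjD w') ∈ EE b := by
  have h : prodD w (conjD w')
      = ∑ i, ∑ j, (w (a i) * conj (w' (a j))) • prodD (b i) (conjD (b j)) := by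
    apply ext_D
    intro x
    rw [prodD_delta, conjD_delta, hw.expand hs, hw'.expand hs, map_sum, Finset.sum_mul_sum]
    simp only [sum_apply, _root_.smul_apply, prodD_delta, conjD_delta, smul_eq_mul, map_mul]
    refine Finset.sum_congr rfl fun i _ => Finset.sum_congr rfl fun j _ => by ring
  rw [h]
  refine Submodule.sum_mem _ fun i _ => Submodule.sum_mem _ fun j _ =>
    Submodule.smul_mem _ _ (Submodule.subset_span (Or.inl ⟨(i, j), rfl⟩))

theorem Rt_prod (w v : DD G) (y : G) :
    Rt (prodD w (conjD v)) (delta y) = prodD (Rt w (delta y)) (conjD (Rt v (delta y))) := by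
  apply ext_D; intro x
  simp

theorem Lt_prod (w v : DD G) (y : G) :
    Lt (prodD w (conjD v)) (delta y) = prodD (Lt w (delta y)) (conjD (Lt v (delta y))) := by
  apply ext_D; intro x
  simp

theorem EE_Rt {I : Submodule ℂ (AA G)} (hI : Ideal2 I) {m : ℕ} {a : Fin m → AA G}
    {b : Fin m → DD G} (hs : DSys I a b) (z : DD G) (hz : z ∈ EE b) (y : G) :
    Rt z (delta y) ∈ EE b := by
  let T : DD G →ₗ[ℂ] DD G :=
    { toFun := fun z => Rt z (delta y)
      map_add' := fun z z' => by ext c; simp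
      map_smul' := fun c z => by ext d; simp }
  have h : EE b ≤ (EE b).comap T := by
    rw [EE, Submodule.span_le]
    rintro _ (⟨ij, rfl⟩ | rfl)
    · change Rt (prodD (b ij.1) (conjD (b ij.2))) (delta y) ∈ EE b
      rw [Rt_prod]
      exact prod_mem_EE hs ((hs.van _).Rt hI _) ((hs.van _).Rt hI _)
    · change Rt eps (delta y) ∈ EE b
      have : Rt (eps : DD G) (delta y) = eps := by
        apply ext_D; intro x; simp
      rw [this]
      exact eps_mem_EE b
  exact h hz

theorem EE_Lt {I : Submodule ℂ (AA G)} (hI : Ideal2 I) {m : ℕ} {a : Fin m → AA G}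
    {b : Fin m → DD G} (hs : DSys I a b) (z : DD G) (hz : z ∈ EE b) (y : G) :
    Lt z (delta y) ∈ EE b := by
  let T : DD G →ₗ[ℂ] DD G :=
    { toFun := fun z => Lt z (delta y)
      map_add' := fun z z' => by ext c; simp
      map_smul' := fun c z => by ext d; simp }
  have h : EE b ≤ (EE b).comap T := by
    rw [EE, Submodule.span_le]
    rintro _ (⟨ij, rfl⟩ | rfl)
    · change Lt (prodD (b ij.1) (conjD (b ij.2))) (delta y) ∈ EE b
      rw [Lt_prod]
      exact prod_mem_EE hs ((hs.van _).Lt hI _) ((hs.van _).Lt hI _)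
    · change Lt eps (delta y) ∈ EE b
      have : Lt (eps : DD G) (delta y) = eps := by
        apply ext_D; intro x; simp
      rw [this]
      exact eps_mem_EE b
  exact h hz

theorem Pos.conj_apply {p : AA G} (hp : Pos p) (z : DD G) : conjD z p = conj (z p) := by
  have h1 := hp (z - conjD z) 0 (fun x => by simp)
  have h2 := hp (conjD z - z) 0 (fun x => by simp)
  have h3 := hp (Complex.I • (z + conjD z)) 0 (fun x => by simp)
  have h4 := hp ((-Complex.I) • (z + conjD z)) 0 (fun x => by simp)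
  simp at h1 h2 h3 h4
  apply Complex.ext
  · simp; linarith
  · simp; linarith

theorem mean_conj {μ : AA G} (hμ : Good μ) (M : DD G →L[ℂ] ℂ)
    (hM : ∀ z, Tendsto (fun n => z (avg μ n)) (hyperfilter ℕ : Filter ℕ) (𝓝 (M z))) (z : DD G) :
    M (conjD z) = conj (M z) := by
  refine tendsto_nhds_unique (hM (conjD z)) ?_
  have h1 := (Complex.continuous_conj.tendsto _).comp (hM z)
  refine h1.congr (fun n => ?_)
  simp only [Function.comp]
  rw [(pos_avg hμ.pos n).conj_apply]

theorem mean_eps {μ : AA G} (hμ : Good μ) (M : DD G →L[ℂ] ℂ)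
    (hM : ∀ z, Tendsto (fun n => z (avg μ n)) (hyperfilter ℕ : Filter ℕ) (𝓝 (M z))) :
    M eps = 1 := by
  refine tendsto_nhds_unique (hM eps) ?_
  refine tendsto_const_nhds.congr (fun n => ?_)
  rw [(pos_avg hμ.pos n).eps]

/-- positivity of the mean -/
theorem mean_pos {μ : AA G} (hμ : Good μ) (M : DD G →L[ℂ] ℂ)
    (hM : ∀ z, Tendsto (fun n => z (avg μ n)) (hyperfilter ℕ : Filter ℕ) (𝓝 (M z)))
    {I : Submodule ℂ (AA G)} (hI : Ideal2 I) {m : ℕ} {a : Fin m → AA G}
    {b : Fin m → DD G} (hs : DSys I a b) (w : DD G) (hw : InW I w)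
    (h0 : M (prodD w (conjD w)) = 0) : w = 0 := by
  classical
  set u : DD G := prodD w (conjD w) with hu
  have hud : ∀ x, u (delta x) = ((‖w (delta x)‖ ^ 2 : ℝ) : ℂ) := by
    intro x
    rw [hu, prodD_delta, conjD_delta, Complex.mul_conj, Complex.normSq_eq_norm_sq]
  by_contra hne
  -- a uniform lower bound
  have key : ∃ c : ℝ, 0 < c ∧ ∀ g : G, c ≤ (u (delta g * μ)).re := by
    by_contra hcon
    push Not at hcon
    have h1 : ∀ i : ℕ, ∃ g : G, (u (delta g * μ)).re < 1 / ((i : ℝ) + 1) :=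
      fun i => hcon _ (by positivity)
    choose g hg using h1
    let V : Submodule ℂ (DD G) := Submodule.span ℂ (Set.range b)
    have hfd : FiniteDimensional ℂ V := FiniteDimensional.span_of_finite ℂ (Set.finite_range _)
    have : ProperSpace V := FiniteDimensional.proper ℂ V
    have hmem : ∀ φ : DD G, InW I φ → φ ∈ V := by
      intro φ hφ
      rw [hφ.eq_sum hs]
      exact Submodule.sum_mem _ fun i _ => Submodule.smul_mem _ _ (Submodule.subset_span ⟨i, rfl⟩)
    let v : ℕ → V := fun i => ⟨Lt w (delta (g i)), hmem _ (hw.Lt hI _)⟩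
    have hv : ∀ i, v i ∈ Metric.closedBall (0 : V) ‖w‖ := by
      intro i
      rw [Metric.mem_closedBall, Subtype.dist_eq]
      change dist (Lt w (delta (g i))) (0 : DD G) ≤ _
      rw [dist_zero_right]
      exact norm_Lt_le w _
    obtain ⟨w', -, φ, hφ, hw'⟩ := (isCompact_closedBall (0 : V) ‖w‖).tendsto_subseq hv
    have hlimD : Tendsto (fun i => Lt w (delta (g (φ i)))) atTop (𝓝 (w' : DD G)) :=
      (continuous_subtype_val.tendsto w').comp hw'
    have hz : (w' : DD G) = 0 := by
      apply ext_D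
      intro h
      obtain ⟨c, hc, hh⟩ := hμ.wt h
      have h2 : ∀ i, ‖w (delta (g i * h))‖ ^ 2 ≤ (1 / c) * (1 / ((i : ℝ) + 1)) := by
        intro i
        have h3 := hh (Lt u (delta (g i))) (fun x => by
          rw [Lt_apply, delta_mul_delta, hud, Complex.ofReal_re]; positivity)
        rw [Lt_apply, delta_mul_delta, hud, Complex.ofReal_re, Lt_apply] at h3
        have h4 := hg i
        rw [one_div_mul_eq_div, le_div_iff₀ hc]
        linarith
      have h5 : Tendsto (fun i : ℕ => (1 / c) * (1 / ((i : ℝ) + 1))) atTop (𝓝 0) := by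
        simpa using tendsto_one_div_add_atTop_nhds_zero_nat.const_mul (1 / c)
      have h6 : Tendsto (fun i => ‖w (delta (g i * h))‖ ^ 2) atTop (𝓝 0) :=
        squeeze_zero (fun i => by positivity) h2 h5
      have h7 : Tendsto (fun i => ‖(Lt w (delta (g (φ i)))) (delta h)‖ ^ 2) atTop
          (𝓝 (‖(w' : DD G) (delta h)‖ ^ 2)) :=
        ((((ContinuousLinearMap.apply ℂ ℂ (delta h : AA G)).continuous.tendsto _).comp
          hlimD).norm).pow 2
      have h8 : Tendsto (fun i => ‖(Lt w (delta (g (φ i)))) (delta h)‖ ^ 2) atTop (𝓝 0) := by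
        refine (h6.comp hφ.tendsto_atTop).congr (fun i => ?_)
        simp only [Function.comp]
        rw [Lt_apply, delta_mul_delta]
      have h9 := tendsto_nhds_unique h7 h8
      have h10 : ‖(w' : DD G) (delta h)‖ = 0 := pow_eq_zero_iff (n := 2) (by norm_num) |>.1 h9
      rw [norm_eq_zero.1 h10]
      simp
    have h11 : Tendsto (fun i => ‖Lt w (delta (g (φ i)))‖) atTop (𝓝 ‖(w' : DD G)‖) :=
      hlimD.norm
    simp only [norm_Lt_eq, hz, norm_zero] at h11
    have h12 := tendsto_nhds_unique tendsto_const_nhds h11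
    exact hne (norm_eq_zero.1 h12)
  obtain ⟨c, hc, hcg⟩ := key
  have h1 : ∀ n, c ≤ (u (avg μ n * μ)).re := by
    intro n
    have := pos_avg hμ.pos n (Rt u μ) c (fun g => by rw [Rt_apply]; exact hcg g)
    rwa [Rt_apply] at this
  have h2 : Tendsto (fun n => u (avg μ n * μ)) (hyperfilter ℕ : Filter ℕ) (𝓝 (M u)) := by
    have h3 : Tendsto (fun n => u (avg μ n * μ - avg μ n)) (hyperfilter ℕ : Filter ℕ)
        (𝓝 (u 0)) := (u.continuous.tendsto 0).comp ((tendsto_avg_mul_sub hμ.nrm).mono_left hyper_le)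
    have h4 := h3.add (hM u)
    rw [map_zero, zero_add] at h4
    refine h4.congr (fun n => ?_)
    rw [map_sub]
    ring
  have h5 : c ≤ (M u).re :=
    ge_of_tendsto ((Complex.continuous_re.tendsto _).comp h2) (Eventually.of_forall h1)
  rw [h0, Complex.zero_re] at h5
  linarith

theorem exists_comb {X : Type*} [AddCommGroup X] [Module ℂ X] {m : ℕ}
    (L : Fin m → (X →ₗ[ℂ] ℂ)) (K : X →ₗ[ℂ] ℂ) (h : ∀ x, (∀ j, L j x = 0) → K x = 0) :
    ∃ c : Fin m → ℂ, ∀ x, K x = ∑ j, c j * L j x := by
  have hker : ⨅ j, LinearMap.ker (L j) ≤ LinearMap.ker K := by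
    intro x hx
    rw [Submodule.mem_iInf] at hx
    exact h x hx
  have hspan := mem_span_of_iInf_ker_le_ker hker
  rw [Submodule.mem_span_range_iff_exists_fun] at hspan
  obtain ⟨c, hc⟩ := hspan
  refine ⟨c, fun x => ?_⟩
  rw [← hc]
  simp

/-- the vector representing evaluation at the identity -/
theorem exists_u0 {μ : AA G} (hμ : Good μ) (M : DD G →L[ℂ] ℂ)
    (hM : ∀ z, Tendsto (fun n => z (avg μ n)) (hyperfilter ℕ : Filter ℕ) (𝓝 (M z)))
    {I : Submodule ℂ (AA G)} (hI : Ideal2 I) {m : ℕ} {a : Fin m → AA G}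
    {b : Fin m → DD G} (hs : DSys I a b) :
    ∃ u0 : DD G, InW I u0 ∧ ∀ w, InW I w → M (prodD w (conjD u0)) = w 1 := by
  classical
  have hprodadd : ∀ w w' v : DD G, prodD (w + w') v = prodD w v + prodD w' v := by
    intro w w' v; apply ext_D; intro x; simp [add_mul]
  have hprodsmul : ∀ (c : ℂ) (w v : DD G), prodD (c • w) v = c • prodD w v := by
    intro c w v; apply ext_D; intro x; simp [mul_assoc]
  let wc : (Fin m → ℂ) → DD G := fun c => ∑ j, c j • b j
  have wc_add : ∀ c d, wc (c + d) = wc c + wc d := by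
    intro c d
    ext f
    simp only [wc]
    rw [_root_.add_apply, sum_apply, sum_apply, sum_apply, ← Finset.sum_add_distrib]
    refine Finset.sum_congr rfl fun j _ => ?_
    simp [add_mul]
  have wc_smul : ∀ (t : ℂ) c, wc (t • c) = t • wc c := by
    intro t c
    simp only [wc, Pi.smul_apply, smul_eq_mul, mul_smul, Finset.smul_sum]
  have wc_in : ∀ c, InW I (wc c) := by
    intro c f hf
    simp only [wc]
    rw [sum_apply]
    refine Finset.sum_eq_zero fun j _ => ?_
    rw [_root_.smul_apply, hs.van j f hf, smul_zero]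
  have wc_eq : ∀ w, InW I w → w = wc (fun j => w (a j)) := fun w hw => hw.eq_sum hs
  let L : Fin m → ((Fin m → ℂ) →ₗ[ℂ] ℂ) := fun j =>
    { toFun := fun c => M (prodD (wc c) (conjD (b j)))
      map_add' := fun c d => by
        rw [wc_add, hprodadd, map_add]
      map_smul' := fun t c => by
        rw [wc_smul, hprodsmul, map_smul]; rfl }
  let K : (Fin m → ℂ) →ₗ[ℂ] ℂ :=
    { toFun := fun c => wc c 1
      map_add' := fun c d => by rw [wc_add, _root_.add_apply]
      map_smul' := fun t c => by rw [wc_smul, _root_.smul_apply]; rfl }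
  have hsum : ∀ (w : DD G) (c : Fin m → ℂ), prodD w (conjD (∑ j, c j • b j))
      = ∑ j, (conj (c j)) • prodD w (conjD (b j)) := by
    intro w c
    apply ext_D
    intro x
    rw [prodD_delta, conjD_delta, sum_apply, sum_apply, map_sum, Finset.mul_sum]
    refine Finset.sum_congr rfl fun j _ => ?_
    simp only [_root_.smul_apply, smul_eq_mul, map_mul, prodD_delta, conjD_delta]
    ring
  have hker : ∀ c : Fin m → ℂ, (∀ j, L j c = 0) → K c = 0 := by
    intro c hc
    have h1 : M (prodD (wc c) (conjD (wc c))) = 0 := by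
      have h4 : prodD (wc c) (conjD (wc c)) = prodD (wc c) (conjD (∑ j, c j • b j)) := rfl
      rw [h4, hsum, map_sum]
      refine Finset.sum_eq_zero fun j _ => ?_
      rw [map_smul]
      have h5 : M (prodD (wc c) (conjD (b j))) = 0 := hc j
      rw [h5, smul_zero]
    have h6 := mean_pos hμ M hM hI hs (wc c) (wc_in c) h1
    change wc c 1 = 0
    rw [h6]
    simp
  obtain ⟨c, hc⟩ := exists_comb L K hker
  refine ⟨∑ j, conj (c j) • b j, wc_in _, ?_⟩
  intro w hw
  have h1 := hc (fun j => w (a j))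
  have h2 : K (fun j => w (a j)) = w 1 := by
    change wc (fun j => w (a j)) 1 = w 1
    rw [← wc_eq w hw]
  rw [h2] at h1
  rw [hsum, map_sum, h1]
  refine Finset.sum_congr rfl fun j _ => ?_
  rw [map_smul, Complex.conj_conj]
  change c j • M (prodD w (conjD (b j))) = c j * M (prodD (wc (fun j => w (a j))) (conjD (b j)))
  rw [← wc_eq w hw]
  rfl

/-- `u₀` is self-adjoint -/
theorem u0_star {μ : AA G} (hμ : Good μ) (M : DD G →L[ℂ] ℂ)
    (hM : ∀ z, Tendsto (fun n => z (avg μ n)) (hyperfilter ℕ : Filter ℕ) (𝓝 (M z)))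
    {I : Submodule ℂ (AA G)} (hI : Ideal2 I) {m : ℕ} {a : Fin m → AA G}
    {b : Fin m → DD G} (hs : DSys I a b) (u0 : DD G) (h0 : InW I u0)
    (h1 : ∀ w, InW I w → M (prodD w (conjD u0)) = w 1) (x : G) :
    conj (u0 (delta x)) = u0 (delta x⁻¹) := by
  have e1 : u0 (delta x⁻¹) = M (prodD (Lt u0 (delta x⁻¹)) (conjD u0)) := by
    rw [h1 _ (h0.Lt hI _), Lt_apply, mul_one]
  have e2 : M (prodD (Lt u0 (delta x⁻¹)) (conjD u0))
      = M (Lt (prodD (Lt u0 (delta x⁻¹)) (conjD u0)) (delta x)) :=
    (mean_left hμ M hM (EE b) (fun z hz y => EE_Lt hI hs z hz y) _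
      (prod_mem_EE hs (h0.Lt hI _) h0) x).symm
  have e3 : Lt (prodD (Lt u0 (delta x⁻¹)) (conjD u0)) (delta x)
      = conjD (prodD (Lt u0 (delta x)) (conjD u0)) := by
    apply ext_D
    intro y
    simp [delta_mul_delta, mul_comm]
  rw [e1, e2, e3, mean_conj hμ M hM, h1 _ (h0.Lt hI _), Lt_apply, mul_one]

end Pool.Agent.Y74.CI
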