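import Pool.Agent.Y74.CI.Data1

/-!
# Twisted smoothing
-/

set_option autoImplicit false
set_option linter.unusedSectionVars false
set_option linter.unusedVariables false

open Filter Topology
open scoped ComplexConjugate

namespace Pool.Agent.Y74.CI

variable {G : Type*} [DecidableEq G] [Group G]

theorem twist_right {m : ℕ} (v : DD G) (b u : Fin m → DD G)
    (h : ∀ x g : G, v (delta (x⁻¹ * g)) = ∑ i, b i (delta x) * u i (delta g)) (f c : AA G) :
    f * Mop v c = ∑ i, Mop (u i) (Mop (b i) f * c) := by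
  have h1 : ∀ x : G, (mulA (G := G) (delta x)).comp (Mop v)
      = ∑ i, (b i (delta x)) • (Mop (u i)).comp (mulA (delta x)) := by
    intro x
    apply ext_D
    intro y
    have e1 : ((mulA (G := G) (delta x)).comp (Mop v)) (delta y)
        = v (delta y) • delta (x * y) := by
      change delta x * Mop v (delta y) = _
      rw [Mop_delta, mul_smul_comm, delta_mul_delta]
    have e2 : ∀ i, ((b i (delta x)) • (Mop (u i)).comp (mulA (delta x))) (delta y)
        = (b i (delta x) * u i (delta (x * y))) • delta (x * y) := by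
      intro i
      change (b i (delta x)) • Mop (u i) (delta x * delta y) = _
      rw [delta_mul_delta, Mop_delta, smul_smul]
    have e3 := h x (x * y)
    rw [inv_mul_cancel_left] at e3
    rw [sum_apply]
    simp only [e1, e2]
    rw [← Finset.sum_smul, ← e3]
  have h2 : (mulA (G := G)).flip (Mop v c)
      = ∑ i, (Mop (u i)).comp (((mulA (G := G)).flip c).comp (Mop (b i))) := by
    apply ext_D
    intro x
    have e1 := congrArg (fun T => T c) (h1 x)
    simp only [sum_apply] at e1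
    rw [sum_apply]
    refine Eq.trans e1 (Finset.sum_congr rfl fun i _ => ?_)
    change (b i (delta x)) • Mop (u i) (delta x * c) = Mop (u i) (Mop (b i) (delta x) * c)
    rw [Mop_delta, smul_mul_assoc, map_smul]
  have h3 := congrArg (fun T => T f) h2
  simp only [sum_apply] at h3
  exact h3

theorem twist_mul {I : Submodule ℂ (AA G)} (hI : Ideal2 I) {m : ℕ} {a : Fin m → AA G}
    {b : Fin m → DD G} (hs : DSys I a b) (w : DD G) (hw : InW I w) (f c : AA G) :
    Mop w (f * c) = ∑ j, Mop (Rt w (a j)) f * Mop (b j) c := by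
  have h0 : ∀ x y : G, w (delta (x * y)) = ∑ j, (Rt w (a j)) (delta x) * b j (delta y) := by
    intro x y
    have := (hw.Lt hI (delta x)).expand hs (delta y)
    rw [Lt_apply, delta_mul_delta] at this
    rw [this]
    rfl
  have h1 : ∀ x : G, (Mop w).comp (mulA (G := G) (delta x))
      = ∑ j, ((Rt w (a j)) (delta x)) • (mulA (G := G) (delta x)).comp (Mop (b j)) := by
    intro x
    apply ext_D
    intro y
    have e1 : ((Mop w).comp (mulA (G := G) (delta x))) (delta y)
        = w (delta (x * y)) • delta (x * y) := by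
      change Mop w (delta x * delta y) = _
      rw [delta_mul_delta, Mop_delta]
    have e2 : ∀ j, (((Rt w (a j)) (delta x)) • (mulA (G := G) (delta x)).comp (Mop (b j)))
        (delta y) = ((Rt w (a j)) (delta x) * b j (delta y)) • delta (x * y) := by
      intro j
      change ((Rt w (a j)) (delta x)) • (delta x * Mop (b j) (delta y)) = _
      rw [Mop_delta, mul_smul_comm, delta_mul_delta, smul_smul]
    rw [sum_apply]
    simp only [e1, e2]
    rw [← Finset.sum_smul, ← h0]
  have h2 : (Mop w).comp ((mulA (G := G)).flip c)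
      = ∑ j, ((mulA (G := G)).flip (Mop (b j) c)).comp (Mop (Rt w (a j))) := by
    apply ext_D
    intro x
    have e1 := congrArg (fun T => T c) (h1 x)
    simp only [sum_apply] at e1
    rw [sum_apply]
    refine Eq.trans e1 (Finset.sum_congr rfl fun j _ => ?_)
    change ((Rt w (a j)) (delta x)) • (delta x * Mop (b j) c)
      = Mop (Rt w (a j)) (delta x) * Mop (b j) c
    rw [Mop_delta, smul_mul_assoc]
  have h3 := congrArg (fun T => T f) h2
  simp only [sum_apply] at h3
  exact h3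

/-- the expansion property of `v = conj u₀` -/
theorem exists_expansion {I : Submodule ℂ (AA G)} (hI : Ideal2 I) {m : ℕ} {a : Fin m → AA G}
    {b : Fin m → DD G} (hs : DSys I a b) (u0 : DD G) (h0 : InW I u0)
    (hstar : ∀ x : G, conj (u0 (delta x)) = u0 (delta x⁻¹)) :
    ∃ u : Fin m → DD G, ∀ x g : G, (conjD u0) (delta (x⁻¹ * g))
      = ∑ i, b i (delta x) * u i (delta g) := by
  have hb : ∀ i (g : G), ‖u0 (delta g⁻¹ * a i)‖ ≤ ‖u0‖ * ‖a i‖ := by
    intro i g
    refine (u0.le_opNorm _).trans (mul_le_mul_of_nonneg_left ?_ (norm_nonneg _))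
    refine (norm_mul_le _ _).trans ?_
    rw [norm_delta, one_mul]
  refine ⟨fun i => lift (fun g => u0 (delta g⁻¹ * a i)) (‖u0‖ * ‖a i‖) (hb i), fun x g => ?_⟩
  rw [conjD_delta, hstar, mul_inv_rev, inv_inv]
  have h1 := (h0.Lt hI (delta g⁻¹)).expand hs (delta x)
  rw [Lt_apply, delta_mul_delta] at h1
  rw [h1]
  refine Finset.sum_congr rfl fun i _ => ?_
  rw [lift_delta, Lt_apply, mul_comm]

theorem P1_main {μ : AA G} (hμ : Good μ) (M : DD G →L[ℂ] ℂ)
    (hM : ∀ z, Tendsto (fun n => z (avg μ n)) (hyperfilter ℕ : Filter ℕ) (𝓝 (M z)))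
    {I : Submodule ℂ (AA G)} (hI : Ideal2 I) {m : ℕ} {a : Fin m → AA G}
    {b : Fin m → DD G} (hs : DSys I a b) (u0 : DD G) (h0 : InW I u0)
    (h1 : ∀ w, InW I w → M (prodD w (conjD u0)) = w 1) (ε : ℝ) (hε : 0 < ε) :
    ∃ N : ℕ, ∀ n ≥ N, ∃ L, ∀ l ≥ L,
      ‖(1 - Mop (conjD u0) (avg μ n)) * Mop (conjD u0) (avg μ l)‖ ≤ ε := by
  classical
  have hstar := u0_star hμ M hM hI hs u0 h0 h1
  obtain ⟨u, hu⟩ := exists_expansion hI hs u0 h0 hstar
  set v := conjD u0 with hv
  set U : ℝ := ∑ i, ‖u i‖ + 1 with hU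
  have hUpos : 0 < U := by positivity
  set ε' : ℝ := ε / (2 * U) with hε'
  have hε'pos : 0 < ε' := by positivity
  -- the mean zero functions
  set z : Fin m → DD G := fun i => prodD (b i) v - (b i 1) • eps with hz
  have hzE : ∀ i, z i ∈ EE b := fun i =>
    Submodule.sub_mem _ (prod_mem_EE hs (hs.van i) h0) (Submodule.smul_mem _ _ (eps_mem_EE b))
  have hzM : ∀ i, M (z i) = 0 := by
    intro i
    rw [hz]
    simp only
    rw [map_sub, map_smul, h1 _ (hs.van i), mean_eps hμ M hM, smul_eq_mul, mul_one, sub_self]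
  have hex : ∀ i, ∃ N : ℕ, ∀ n ≥ N, ∀ l ≥ N, ‖Mop (z i) (avg μ n) * avg μ l‖ ≤ ε' :=
    fun i => KL_i hμ M hM (EE b) (fun z hz y => EE_Rt hI hs z hz y)
      (fun z hz y => EE_Lt hI hs z hz y) (z i) (hzE i) (hzM i) ε' hε'pos
  choose N hN using hex
  refine ⟨∑ i, N i, fun n hn => ?_⟩
  have hlim : Tendsto (fun l => ∑ i, ‖u i‖ * (‖b i 1‖ * ‖avg μ n * avg μ l - avg μ l‖)) atTop
      (𝓝 (∑ i, ‖u i‖ * (‖b i 1‖ * 0))) := by
    refine tendsto_finsetSum _ fun i _ => ?_
    have h2 := tendsto_zero_iff_norm_tendsto_zero.1 (tendsto_avg_mul_avg hμ.nrm n)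
    exact (h2.const_mul _).const_mul _
  simp only [mul_zero, Finset.sum_const_zero] at hlim
  have hev : ∀ᶠ l in atTop, ∑ i, ‖u i‖ * (‖b i 1‖ * ‖avg μ n * avg μ l - avg μ l‖) < ε / 2 :=
    hlim.eventually (gt_mem_nhds (by positivity))
  obtain ⟨L0, hL0⟩ := eventually_atTop.1 hev
  refine ⟨max L0 (∑ i, N i), fun l hl => ?_⟩
  have hl0 := hL0 l ((le_max_left _ _).trans hl)
  have hNi : ∀ i, N i ≤ ∑ i, N i := fun i =>
    Finset.single_le_sum (fun j _ => Nat.zero_le _) (Finset.mem_univ i)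
  rw [twist_right v b u hu]
  have hterm : ∀ i, Mop (b i) (1 - Mop v (avg μ n)) * avg μ l
      = -((b i 1) • (avg μ n * avg μ l - avg μ l)) - Mop (z i) (avg μ n) * avg μ l := by
    intro i
    have e1 : Mop (b i) (1 : AA G) = (b i 1) • (1 : AA G) := by
      rw [one_def', Mop_delta]
    rw [map_sub, e1, Mop_Mop, hz]
    simp only
    rw [Mop_sub, Mop_smul, Mop_eps, sub_mul, sub_mul, smul_mul_assoc, smul_mul_assoc, one_mul,
      smul_sub]
    abel
  calc ‖∑ i, Mop (u i) (Mop (b i) (1 - Mop v (avg μ n)) * avg μ l)‖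
      ≤ ∑ i, ‖Mop (u i) (Mop (b i) (1 - Mop v (avg μ n)) * avg μ l)‖ := norm_sum_le _ _
    _ ≤ ∑ i, (‖u i‖ * (‖b i 1‖ * ‖avg μ n * avg μ l - avg μ l‖) + ‖u i‖ * ε') := by
        refine Finset.sum_le_sum fun i _ => ?_
        refine (norm_Mop_apply_le _ _).trans ?_
        rw [hterm i, ← mul_add]
        refine mul_le_mul_of_nonneg_left ?_ (norm_nonneg _)
        refine (norm_sub_le _ _).trans (add_le_add ?_ ?_)
        · rw [norm_neg, norm_smul]
        · exact hN i n ((hNi i).trans hn) l ((hNi i).trans ((le_max_right _ _).trans hl))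
    _ = ∑ i, ‖u i‖ * (‖b i 1‖ * ‖avg μ n * avg μ l - avg μ l‖) + (∑ i, ‖u i‖) * ε' := by
        rw [Finset.sum_add_distrib, Finset.sum_mul]
    _ ≤ ε / 2 + U * ε' := by
        apply add_le_add hl0.le
        apply mul_le_mul_of_nonneg_right _ hε'pos.le
        rw [hU]; linarith
    _ = ε := by
        rw [hε']; field_simp; ring

theorem P2_main {μ : AA G} (hμ : Good μ)
    {I : Submodule ℂ (AA G)} (hI : Ideal2 I) {m : ℕ} {a : Fin m → AA G}
    {b : Fin m → DD G} (hs : DSys I a b) (u0 : DD G) (h0 : InW I u0)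
    (hstar : ∀ x : G, conj (u0 (delta x)) = u0 (delta x⁻¹)) (w' : DD G) (hw' : InW I w')
    (f : AA G) (hf : f ∈ I) (ε : ℝ) (hε : 0 < ε) :
    ∃ N : ℕ, ∀ n ≥ N, ∀ l ≥ N,
      ‖Mop (conjD w') (avg μ n) * f * Mop (conjD u0) (avg μ l)‖ ≤ ε := by
  classical
  obtain ⟨u, hu⟩ := exists_expansion hI hs u0 h0 hstar
  set U : ℝ := ∑ i : Fin m, ‖u i‖ * (m : ℝ) + 1 with hU
  have hUpos : 0 < U := by positivity
  have hex : ∀ i j, ∃ N : ℕ, ∀ n ≥ N, ∀ l ≥ N,
      ‖Mop (prodD (Rt (b i) (a j)) (conjD w')) (avg μ n) * Mop (b j) f * avg μ l‖ ≤ ε / U := by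
    intro i j
    refine KL_ii hμ (EE b) (fun z hz y => EE_Rt hI hs z hz y) _
      (prod_mem_EE hs ((hs.van i).Rt hI _) hw') _ ?_ _ (by positivity)
    have : (eps : DD G).comp (Mop (b j)) = b j := by
      apply ext_D; intro x; simp
    calc eps (Mop (b j) f) = ((eps : DD G).comp (Mop (b j))) f := rfl
      _ = 0 := by rw [this]; exact hs.van j f hf
  choose N hN using hex
  refine ⟨∑ i, ∑ j, N i j, fun n hn l hl => ?_⟩
  have hNi : ∀ i j, N i j ≤ ∑ i, ∑ j, N i j := fun i j =>
    (Finset.single_le_sum (f := fun j => N i j) (fun j _ => Nat.zero_le _)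
      (Finset.mem_univ j)).trans
    (Finset.single_le_sum (f := fun i => ∑ j, N i j) (fun j _ => Nat.zero_le _)
      (Finset.mem_univ i))
  rw [twist_right (conjD u0) b u hu]
  have hterm : ∀ i, Mop (b i) (Mop (conjD w') (avg μ n) * f) * avg μ l
      = ∑ j, Mop (prodD (Rt (b i) (a j)) (conjD w')) (avg μ n) * Mop (b j) f * avg μ l := by
    intro i
    rw [twist_mul hI hs (b i) (hs.van i), Finset.sum_mul]
    refine Finset.sum_congr rfl fun j _ => ?_
    rw [Mop_Mop]
  calc ‖∑ i, Mop (u i) (Mop (b i) (Mop (conjD w') (avg μ n) * f) * avg μ l)‖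
      ≤ ∑ i, ‖Mop (u i) (Mop (b i) (Mop (conjD w') (avg μ n) * f) * avg μ l)‖ :=
        norm_sum_le _ _
    _ ≤ ∑ i, ‖u i‖ * ((m : ℝ) * (ε / U)) := by
        refine Finset.sum_le_sum fun i _ => ?_
        refine (norm_Mop_apply_le _ _).trans ?_
        rw [hterm i]
        refine mul_le_mul_of_nonneg_left ?_ (norm_nonneg _)
        refine (norm_sum_le _ _).trans ?_
        calc _ ≤ ∑ j : Fin m, ε / U := Finset.sum_le_sum fun j _ =>
              hN i j n ((hNi i j).trans hn) l ((hNi i j).trans hl)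
          _ = (m : ℝ) * (ε / U) := by simp
    _ = (∑ i, ‖u i‖ * (m : ℝ)) * (ε / U) := by
        rw [Finset.sum_mul]
        refine Finset.sum_congr rfl fun i _ => by ring
    _ ≤ U * (ε / U) := by
        apply mul_le_mul_of_nonneg_right _ (by positivity)
        rw [hU]; linarith
    _ = ε := by field_simp

end Pool.Agent.Y74.CI
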