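import Pool.Agent.Y74.CI.Core

/-!
# Two-sided smoothing tends to zero in norm
-/

set_option autoImplicit false
set_option linter.unusedSectionVars false
set_option linter.unusedVariables false

open Filter Topology H937R3
open scoped ComplexConjugate

namespace Pool.Agent.Y74.CI

variable {G : Type*} [DecidableEq G] [Group G]

theorem delta_dense (S : Submodule ℂ (AA G)) (hS : IsClosed (S : Set (AA G)))
    (h : ∀ x, delta x ∈ S) (a : AA G) : a ∈ S := by
  let b : L1 G := a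
  have h1 := lp.hasSum_single (E := fun _ : G => ℂ) (p := 1) (by norm_num) b
  have h2 : ∀ x : G, (lp.single 1 x (b x) : L1 G) ∈ S := by
    intro x
    have h3 : (lp.single 1 x (b x) : L1 G) = (b x) • (L1.delta x : L1 G) := by
      rw [L1.delta, ← lp.single_smul]
      simp
    rw [h3]
    exact S.smul_mem _ (h x)
  have h4 : Tendsto (fun s : Finset G => ∑ x ∈ s, (lp.single 1 x (b x) : L1 G))
      atTop (𝓝 b) := h1
  exact hS.mem_of_tendsto h4 (Eventually.of_forall fun s => S.sum_mem fun x _ => h2 x)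

theorem mem_of_delta {X : Type*} [NormedAddCommGroup X] [NormedSpace ℂ X] (T : AA G →L[ℂ] X)
    (E : Submodule ℂ X) [FiniteDimensional ℂ E] (h : ∀ x, T (delta x) ∈ E) (a : AA G) :
    T a ∈ E := by
  have hE : IsClosed (E : Set X) := Submodule.closed_of_finiteDimensional E
  exact delta_dense (E.comap (T : AA G →ₗ[ℂ] X)) (hE.preimage T.continuous) h a

theorem Lt_Lt (e : DD G) (a b : AA G) : Lt (Lt e a) b = Lt e (a * b) := by
  ext c
  simp [mul_assoc]

theorem Lt_one (e : DD G) : Lt e 1 = e := by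
  apply ext_D
  intro x
  simp

theorem exists_mean {μ : AA G} (hμ : ‖μ‖ ≤ 1) :
    ∃ M : DD G →L[ℂ] ℂ, ∀ z, Tendsto (fun n => z (avg μ n)) (hyperfilter ℕ : Filter ℕ)
      (𝓝 (M z)) := by
  obtain ⟨M, -, h⟩ := exists_ulim (X := DD G)
    (fun n => ContinuousLinearMap.apply ℂ ℂ (avg μ n)) 1 (fun n z => by
      change ‖z (avg μ n)‖ ≤ 1 * ‖z‖
      rw [one_mul]
      calc ‖z (avg μ n)‖ ≤ ‖z‖ * ‖avg μ n‖ := z.le_opNorm _
        _ ≤ ‖z‖ * 1 := mul_le_mul_of_nonneg_left (norm_avg_le hμ n) (norm_nonneg _)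
        _ = ‖z‖ := mul_one _)
  exact ⟨M, h⟩

/-- `z ↦ (a ↦ M (Lt z a))` -/
noncomputable def ML (M : DD G →L[ℂ] ℂ) : DD G →ₗ[ℂ] DD G where
  toFun z := M.comp (Lt z)
  map_add' z z' := by
    ext a
    have : Lt (z + z') a = Lt z a + Lt z' a := by ext b; simp
    simp [this]
  map_smul' c z := by
    ext a
    have : Lt (c • z) a = c • Lt z a := by ext b; simp
    simp [this]

theorem ML_apply (M : DD G →L[ℂ] ℂ) (z : DD G) (a : AA G) : ML M z a = M (Lt z a) := rfl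

theorem mean_left {μ : AA G} (hμ : Good μ) (M : DD G →L[ℂ] ℂ)
    (hM : ∀ z, Tendsto (fun n => z (avg μ n)) (hyperfilter ℕ : Filter ℕ) (𝓝 (M z)))
    (E : Submodule ℂ (DD G)) [FiniteDimensional ℂ E]
    (hE : ∀ z ∈ E, ∀ x, Lt z (delta x) ∈ E) (z : DD G) (hz : z ∈ E) (x : G) :
    M (Lt z (delta x)) = M z := by
  have h1 := mp hμ (ML M z) (E.map (ML M)) (fun x => by
    refine ⟨Lt z (delta x), hE z hz x, ?_⟩
    apply ext_D
    intro g
    rw [ML_apply, Lt_Lt, Lt_apply, ML_apply]) (fun a => by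
    rw [ML_apply, ML_apply]
    refine tendsto_nhds_unique (hM (Lt z (a * μ))) ?_
    have h2 := hM (Lt z a)
    have h3 : Tendsto (fun n => Lt z (a * μ) (avg μ n) - Lt z a (avg μ n))
        (hyperfilter ℕ : Filter ℕ) (𝓝 0) := by
      rw [tendsto_zero_iff_norm_tendsto_zero]
      have h4 : Tendsto (fun n => (‖z‖ * ‖a‖) * ‖avg μ n * μ - avg μ n‖)
          (hyperfilter ℕ : Filter ℕ) (𝓝 0) := by
        have := ((tendsto_zero_iff_norm_tendsto_zero.1
          (tendsto_avg_mul_sub hμ.nrm)).mono_left hyper_le).const_mul (‖z‖ * ‖a‖)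
        simpa using this
      refine squeeze_zero (fun N => norm_nonneg _) (fun n => ?_) h4
      rw [Lt_apply, Lt_apply, ← map_sub, mul_assoc, ← mul_sub, avg_comm]
      calc _ ≤ ‖z‖ * ‖a * (avg μ n * μ - avg μ n)‖ := z.le_opNorm _
        _ ≤ ‖z‖ * (‖a‖ * ‖avg μ n * μ - avg μ n‖) :=
            mul_le_mul_of_nonneg_left (norm_mul_le _ _) (norm_nonneg _)
        _ = _ := by ring
    have h5 := h3.add h2
    simp only [sub_add_cancel, zero_add] at h5
    exact h5) x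
  rw [ML_apply, ML_apply, Lt_one] at h1
  exact h1

/-- extraction of a contradiction sequence -/
theorem KL_aux {μ : AA G} (hμ : Good μ) (z : DD G) (u : AA G) (ε : ℝ) (hε : 0 < ε)
    (hcon : ∀ N : ℕ, ∃ n ≥ N, ∃ m ≥ N, ε < ‖Mop z (avg μ n) * u * avg μ m‖) :
    ∃ (p q : ℕ → AA G) (φ : ℕ → DD G) (Lam : DD G →ₗ[ℂ] DD G), (∀ N, ‖p N‖ ≤ 1) ∧
      (∀ N, ‖q N‖ ≤ 1) ∧ (∀ N, ‖φ N‖ ≤ 1) ∧
      Tendsto (fun N => p N * μ - p N) atTop (𝓝 0) ∧
      Tendsto (fun N => μ * q N - q N) atTop (𝓝 0) ∧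
      (∀ z u, ‖Lam z u‖ ≤ ‖z‖ * ‖u‖) ∧
      (∀ z u, Tendsto (fun N => φ N (Mop z (p N) * u * q N)) (hyperfilter ℕ : Filter ℕ)
        (𝓝 (Lam z u))) ∧ Lam z u ≠ 0 := by
  choose n hn m hm hlt using hcon
  have hφ : ∀ N, ∃ φ : DD G, ‖φ‖ ≤ 1 ∧ φ (Mop z (avg μ (n N)) * u * avg μ (m N))
      = ‖Mop z (avg μ (n N)) * u * avg μ (m N)‖ := fun N => exists_dual_vector'' ℂ _
  choose φ hφ1 hφ2 using hφ
  obtain ⟨Lam, hLb, hLam⟩ := exists_Lam (fun N => avg μ (n N)) (fun N => avg μ (m N)) φ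
    (fun N => norm_avg_le hμ.nrm _) (fun N => norm_avg_le hμ.nrm _) hφ1
  have hn' : Tendsto n atTop atTop := tendsto_atTop_mono hn tendsto_id
  have hm' : Tendsto m atTop atTop := tendsto_atTop_mono hm tendsto_id
  refine ⟨_, _, φ, Lam, fun N => norm_avg_le hμ.nrm _, fun N => norm_avg_le hμ.nrm _, hφ1,
    (tendsto_avg_mul_sub hμ.nrm).comp hn', ?_, hLb, hLam, ?_⟩
  · have := (tendsto_avg_mul_sub hμ.nrm).comp hm'
    refine this.congr (fun N => ?_)
    simp only [Function.comp]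
    rw [avg_comm]
  · intro h0
    have h1 := hLam z u
    rw [h0] at h1
    have h2 := h1.norm
    rw [norm_zero] at h2
    have h3 : ∀ N, ε ≤ ‖φ N (Mop z (avg μ (n N)) * u * avg μ (m N))‖ := by
      intro N
      rw [hφ2, Complex.norm_real, norm_norm]
      exact (hlt N).le
    have := ge_of_tendsto h2 (Eventually.of_forall h3)
    linarith

theorem KL_ii {μ : AA G} (hμ : Good μ) (E : Submodule ℂ (DD G)) [FiniteDimensional ℂ E]
    (hE : ∀ z ∈ E, ∀ y, Rt z (delta y) ∈ E) (z : DD G) (hz : z ∈ E) (u : AA G)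
    (hu : eps u = 0) (ε : ℝ) (hε : 0 < ε) :
    ∃ N : ℕ, ∀ n ≥ N, ∀ m ≥ N, ‖Mop z (avg μ n) * u * avg μ m‖ ≤ ε := by
  by_contra hcon
  push Not at hcon
  obtain ⟨p, q, φ, Lam, hp, hq, hφ, hpμ, hqμ, hLb, hLam, hne⟩ := KL_aux hμ z u ε hε hcon
  have hc := core hμ p q φ hp hq hφ hpμ hqμ Lam hLb hLam E hE z hz
  apply hne
  have h1 : Lam z = (Lam z 1) • eps := by
    apply ext_D
    intro x
    have := hc x 1
    rw [Rt_one] at this
    rw [this]
    simp
  rw [h1, _root_.smul_apply, hu, smul_zero]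

theorem KL_i {μ : AA G} (hμ : Good μ) (M : DD G →L[ℂ] ℂ)
    (hM : ∀ z, Tendsto (fun n => z (avg μ n)) (hyperfilter ℕ : Filter ℕ) (𝓝 (M z)))
    (E : Submodule ℂ (DD G)) [FiniteDimensional ℂ E]
    (hE : ∀ z ∈ E, ∀ y, Rt z (delta y) ∈ E) (hE' : ∀ z ∈ E, ∀ x, Lt z (delta x) ∈ E)
    (z : DD G) (hz : z ∈ E) (hzM : M z = 0) (ε : ℝ) (hε : 0 < ε) :
    ∃ N : ℕ, ∀ n ≥ N, ∀ m ≥ N, ‖Mop z (avg μ n) * avg μ m‖ ≤ ε := by
  by_contra hcon
  push Not at hcon
  obtain ⟨p, q, φ, Lam, hp, hq, hφ, hpμ, hqμ, hLb, hLam, hne⟩ := KL_aux hμ z 1 ε hε (by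
    intro N
    obtain ⟨n, hn, m, hm, h⟩ := hcon N
    exact ⟨n, hn, m, hm, by rwa [mul_one]⟩)
  have hc := core hμ p q φ hp hq hφ hpμ hqμ Lam hLb hLam E hE z hz
  apply hne
  -- the functional `w ↦ Lam w 1`
  let lamL : DD G →L[ℂ] ℂ := LinearMap.mkContinuous
    { toFun := fun w => Lam w 1
      map_add' := fun a b => by simp
      map_smul' := fun c a => by simp } 1 (fun w => by
        change ‖Lam w 1‖ ≤ 1 * ‖w‖
        have := hLb w 1
        rw [norm_one, mul_one] at this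
        rwa [one_mul])
  have hlam : ∀ w, lamL w = Lam w 1 := fun w => rfl
  have h1 : lamL.comp (Rt z) = (Lam z 1) • eps := by
    apply ext_D
    intro y
    have := hc 1 y
    rw [← one_def'] at this
    change lamL (Rt z (delta y)) = _
    rw [hlam, this]
    simp
  have h2 : ∀ n, lamL (Rt z (avg μ n)) = Lam z 1 := by
    intro n
    have : lamL (Rt z (avg μ n)) = (lamL.comp (Rt z)) (avg μ n) := rfl
    rw [this, h1, _root_.smul_apply, (pos_avg hμ.pos n).eps, smul_eq_mul, mul_one]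
  have hmem : ∀ a, Rt z a ∈ E := mem_of_delta (Rt z) E (fun y => hE z hz y)
  have hprop : ProperSpace E := FiniteDimensional.proper ℂ E
  let v : ℕ → E := fun n => ⟨Rt z (avg μ n), hmem _⟩
  have hv : ∀ n, v n ∈ Metric.closedBall (0 : E) ‖z‖ := by
    intro n
    rw [Metric.mem_closedBall, Subtype.dist_eq]
    change dist (Rt z (avg μ n)) (0 : DD G) ≤ _
    rw [dist_zero_right]
    apply ContinuousLinearMap.opNorm_le_bound _ (norm_nonneg _)
    intro b
    rw [Rt_apply]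
    calc ‖z (b * avg μ n)‖ ≤ ‖z‖ * ‖b * avg μ n‖ := z.le_opNorm _
      _ ≤ ‖z‖ * (‖b‖ * 1) := by
          apply mul_le_mul_of_nonneg_left _ (norm_nonneg _)
          exact (norm_mul_le _ _).trans
            (mul_le_mul_of_nonneg_left (norm_avg_le hμ.nrm n) (norm_nonneg _))
      _ = ‖z‖ * ‖b‖ := by rw [mul_one]
  have hK := isCompact_closedBall (0 : E) ‖z‖
  have h3 : ((hyperfilter ℕ).map v : Filter E) ≤ 𝓟 (Metric.closedBall (0 : E) ‖z‖) := by
    rw [le_principal_iff]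
    exact Filter.mem_map.2 (Filter.univ_mem' (fun n => hv n))
  obtain ⟨w, -, hw⟩ := hK.ultrafilter_le_nhds ((hyperfilter ℕ).map v) h3
  have hw' : Tendsto v (hyperfilter ℕ : Filter ℕ) (𝓝 w) := hw
  have hwD : Tendsto (fun n => Rt z (avg μ n)) (hyperfilter ℕ : Filter ℕ) (𝓝 (w : DD G)) :=
    (continuous_subtype_val.tendsto w).comp hw'
  have hw0 : (w : DD G) = 0 := by
    apply ext_D
    intro x
    have h4 : Tendsto (fun n => Rt z (avg μ n) (delta x)) (hyperfilter ℕ : Filter ℕ)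
        (𝓝 ((w : DD G) (delta x))) :=
      ((ContinuousLinearMap.apply ℂ ℂ (delta x : AA G)).continuous.tendsto _).comp hwD
    have h5 : Tendsto (fun n => Rt z (avg μ n) (delta x)) (hyperfilter ℕ : Filter ℕ)
        (𝓝 (M (Lt z (delta x)))) := hM (Lt z (delta x))
    rw [mean_left hμ M hM E hE' z hz x, hzM] at h5
    rw [tendsto_nhds_unique h4 h5]
    simp
  have h6 : Tendsto (fun n => lamL (Rt z (avg μ n))) (hyperfilter ℕ : Filter ℕ)
      (𝓝 (lamL (w : DD G))) := (lamL.continuous.tendsto _).comp hwD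
  simp only [h2] at h6
  rw [hw0, map_zero] at h6
  exact tendsto_nhds_unique tendsto_const_nhds h6

end Pool.Agent.Y74.CI
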