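import Pool.Agent.Y74.CI.Avg

/-!
# The maximum principle and the variance estimate
-/

set_option autoImplicit false
set_option linter.unusedSectionVars false
set_option linter.unusedVariables false

open Filter Topology
open scoped ComplexConjugate

namespace Pool.Agent.Y74.CI

variable {G : Type*} [DecidableEq G] [Group G]

/-- A right `μ`-harmonic bounded function whose left translates span a finite-dimensional space
is constant. -/
theorem mp {μ : AA G} (hμ : Good μ) (F : DD G) (V : Submodule ℂ (DD G)) [FiniteDimensional ℂ V]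
    (hV : ∀ x, Lt F (delta x) ∈ V) (hF : ∀ a, F (a * μ) = F a) (x : G) :
    F (delta x) = F 1 := by
  classical
  have : ProperSpace V := FiniteDimensional.proper ℂ V
  set S : Set ℝ := Set.range (fun x : G => ‖F (delta x)‖) with hS
  have hne : S.Nonempty := ⟨_, ⟨1, rfl⟩⟩
  have hbdd : BddAbove S := ⟨‖F‖, by
    rintro _ ⟨x, rfl⟩
    exact norm_apply_delta_le F x⟩
  obtain ⟨u, -, hu, huS⟩ := exists_seq_tendsto_sSup hne hbdd
  choose xs hxs using huS
  set s := sSup S with hs
  have hle : ∀ x, ‖F (delta x)‖ ≤ s := fun x => le_csSup hbdd ⟨x, rfl⟩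
  have hs0 : 0 ≤ s := (norm_nonneg _).trans (hle 1)
  let v : ℕ → V := fun i => ⟨Lt F (delta (xs i)), hV _⟩
  have hv : ∀ i, v i ∈ Metric.closedBall (0 : V) ‖F‖ := by
    intro i
    rw [Metric.mem_closedBall, Subtype.dist_eq]
    change dist (Lt F (delta (xs i))) (0 : DD G) ≤ _
    rw [dist_zero_right]
    exact norm_Lt_le F _
  obtain ⟨a, -, φ, hφ, ha⟩ := (isCompact_closedBall (0 : V) ‖F‖).tendsto_subseq hv
  set F' : DD G := (a : DD G) with hF'
  have hlimD : Tendsto (fun i => Lt F (delta (xs (φ i)))) atTop (𝓝 F') :=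
    (continuous_subtype_val.tendsto a).comp ha
  have hlim : ∀ b, Tendsto (fun i => F (delta (xs (φ i)) * b)) atTop (𝓝 (F' b)) := by
    intro b
    have h1 : Continuous (fun T : DD G => T b) :=
      (ContinuousLinearMap.apply ℂ ℂ b).continuous
    exact (h1.tendsto F').comp hlimD
  have hF'inv : ∀ b, F' (b * μ) = F' b := by
    intro b
    refine tendsto_nhds_unique (hlim (b * μ)) ?_
    refine (hlim b).congr (fun i => ?_)
    rw [← mul_assoc, hF]
  have hF'le : ∀ x, ‖F' (delta x)‖ ≤ s := by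
    intro x
    refine le_of_tendsto (hlim (delta x)).norm (Eventually.of_forall fun i => ?_)
    rw [delta_mul_delta]
    exact hle _
  set c0 := F' 1 with hc0
  have hc0n : ‖c0‖ = s := by
    have h1 : Tendsto (fun i => ‖F (delta (xs (φ i)) * 1)‖) atTop (𝓝 ‖c0‖) := (hlim 1).norm
    have h2 : Tendsto (fun i => ‖F (delta (xs (φ i)) * 1)‖) atTop (𝓝 s) := by
      refine (hu.comp hφ.tendsto_atTop).congr (fun i => ?_)
      rw [mul_one]
      exact (hxs (φ i)).symm
    exact tendsto_nhds_unique h1 h2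
  have hconst : ∀ h : G, F' (delta h) = c0 := by
    intro h
    obtain ⟨c, hc, hh⟩ := hμ.wt h
    have h1 := hh (((s ^ 2 : ℝ) : ℂ) • eps - (conj c0) • F') (fun x => by
      simp only [_root_.sub_apply, _root_.smul_apply, smul_eq_mul, eps_delta,
        mul_one, Complex.sub_re, Complex.ofReal_re]
      have h2 : (conj c0 * F' (delta x)).re ≤ ‖conj c0 * F' (delta x)‖ := Complex.re_le_norm _
      rw [norm_mul, RCLike.norm_conj, hc0n] at h2
      have h3 := mul_le_mul_of_nonneg_left (hF'le x) hs0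
      nlinarith)
    have h4 : F' μ = c0 := by
      have := hF'inv 1
      rw [one_mul] at this
      exact this
    simp only [_root_.sub_apply, _root_.smul_apply, smul_eq_mul, eps_delta, mul_one,
      Complex.sub_re, Complex.ofReal_re, hμ.pos.eps, h4] at h1
    have h5 : (conj c0 * c0).re = s ^ 2 := by
      rw [mul_comm, Complex.mul_conj, Complex.ofReal_re, Complex.normSq_eq_norm_sq, hc0n]
    rw [h5, sub_self] at h1
    have h6 : s ^ 2 ≤ (conj c0 * F' (delta h)).re := by
      by_contra hcon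
      push Not at hcon
      have : 0 < c * (s ^ 2 - (conj c0 * F' (delta h)).re) := mul_pos hc (by linarith)
      linarith
    have h7 : ‖F' (delta h) - c0‖ ^ 2 ≤ 0 := by
      have h8 : ‖F' (delta h) - c0‖ ^ 2 = ‖F' (delta h)‖ ^ 2 + ‖c0‖ ^ 2
          - 2 * (conj c0 * F' (delta h)).re := by
        rw [← Complex.normSq_eq_norm_sq, ← Complex.normSq_eq_norm_sq, ← Complex.normSq_eq_norm_sq,
          Complex.normSq_sub]
        rw [mul_comm (conj c0)]
      rw [h8, hc0n]
      have h9 : ‖F' (delta h)‖ ^ 2 ≤ s ^ 2 := pow_le_pow_left₀ (norm_nonneg _) (hF'le h) 2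
      linarith
    have h10 : ‖F' (delta h) - c0‖ = 0 := by
      have := pow_eq_zero_iff (n := 2) (by norm_num) |>.1 (le_antisymm h7 (sq_nonneg _))
      exact this
    exact sub_eq_zero.1 (norm_eq_zero.1 h10)
  have hall : ∀ x : G, F (delta x) = c0 := by
    intro x
    have h1 : Tendsto (fun i => ‖Lt F (delta (xs (φ i))) - F'‖) atTop (𝓝 0) :=
      tendsto_iff_norm_sub_tendsto_zero.1 hlimD
    have h2 : ∀ i, ‖F (delta x) - c0‖ ≤ ‖Lt F (delta (xs (φ i))) - F'‖ := by
      intro i
      have h3 : F (delta x) - c0 = (Lt F (delta (xs (φ i))) - F') (delta ((xs (φ i))⁻¹ * x)) := by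
        rw [_root_.sub_apply, Lt_apply, delta_mul_delta, hconst]
        simp
      rw [h3]
      exact norm_apply_delta_le _ _
    have h4 : ‖F (delta x) - c0‖ ≤ 0 := ge_of_tendsto h1 (Eventually.of_forall h2)
    exact sub_eq_zero.1 (norm_le_zero_iff.1 h4)
  rw [hall x, one_def', hall 1]

/-- the variance estimate for left `μ`-harmonic bounded functions -/
theorem var {μ : AA G} (hμ : Good μ) (F : DD G) (hF : ∀ a, F (μ * a) = F a) (h : G) :
    ∃ (S : DD G) (C : ℝ), (∀ g, S (delta g) = ((‖F (delta (h * g)) - F (delta g)‖ ^ 2 : ℝ) : ℂ)) ∧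
      ∀ n, (S (avg μ n)).re ≤ C / ((n : ℝ) + 1) := by
  obtain ⟨c, hc, hh⟩ := hμ.wt h
  set Dh : DD G := Lt F (delta h) - F with hDh
  set S : DD G := prodD Dh (conjD Dh) with hS
  set Q : DD G := prodD F (conjD F) with hQ
  have hSd : ∀ g, S (delta g) = ((‖F (delta (h * g)) - F (delta g)‖ ^ 2 : ℝ) : ℂ) := by
    intro g
    rw [hS, prodD_delta, conjD_delta, Complex.mul_conj, Complex.normSq_eq_norm_sq, hDh,
      _root_.sub_apply, Lt_apply, delta_mul_delta]
  have hQd : ∀ g, Q (delta g) = ((‖F (delta g)‖ ^ 2 : ℝ) : ℂ) := by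
    intro g
    rw [hQ, prodD_delta, conjD_delta, Complex.mul_conj, Complex.normSq_eq_norm_sq]
  have key : ∀ g, c * ‖F (delta (h * g)) - F (delta g)‖ ^ 2
      ≤ (Q (μ * delta g)).re - ‖F (delta g)‖ ^ 2 := by
    intro g
    set T : DD G := Rt Q (delta g) - (2 * conj (F (delta g))) • Rt F (delta g)
      + ((‖F (delta g)‖ ^ 2 : ℝ) : ℂ) • eps with hT
    have hTd : ∀ k, (T (delta k)).re = ‖F (delta (k * g)) - F (delta g)‖ ^ 2 := by
      intro k
      rw [hT]
      simp only [_root_.add_apply, _root_.sub_apply, _root_.smul_apply, smul_eq_mul, Rt_apply,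
        delta_mul_delta, eps_delta, mul_one, hQd, Complex.add_re, Complex.sub_re,
        Complex.ofReal_re]
      rw [← Complex.normSq_eq_norm_sq, ← Complex.normSq_eq_norm_sq, ← Complex.normSq_eq_norm_sq,
        Complex.normSq_sub]
      have : (2 * conj (F (delta g)) * F (delta (k * g))).re
          = 2 * (F (delta (k * g)) * conj (F (delta g))).re := by
        rw [mul_assoc, mul_comm (conj (F (delta g)))]
        have h2 : (2 : ℂ) = ((2 : ℝ) : ℂ) := by norm_num
        rw [h2, Complex.re_ofReal_mul]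
      rw [this]
      ring
    have h1 := hh T (fun k => by rw [hTd]; positivity)
    rw [hTd] at h1
    have h2 : (T μ).re = (Q (μ * delta g)).re - ‖F (delta g)‖ ^ 2 := by
      rw [hT]
      simp only [_root_.add_apply, _root_.sub_apply, _root_.smul_apply, smul_eq_mul, Rt_apply,
        hF, hμ.pos.eps, mul_one, Complex.add_re, Complex.sub_re, Complex.ofReal_re]
      have : (2 * conj (F (delta g)) * F (delta g)).re = 2 * ‖F (delta g)‖ ^ 2 := by
        rw [mul_assoc, mul_comm (conj (F (delta g))), Complex.mul_conj,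
          Complex.normSq_eq_norm_sq]
        have h2 : (2 : ℂ) = ((2 : ℝ) : ℂ) := by norm_num
        rw [h2, Complex.re_ofReal_mul, Complex.ofReal_re]
      rw [this]
      ring
    rw [h2] at h1
    exact h1
  refine ⟨S, ‖Q‖ * 2 / c, hSd, fun n => ?_⟩
  have h1 := pos_avg hμ.pos n (Lt Q μ - Q - (c : ℂ) • S) 0 (fun g => by
    simp only [_root_.sub_apply, _root_.smul_apply, smul_eq_mul, Lt_apply, Complex.sub_re,
      hQd, hSd, Complex.ofReal_re, Complex.re_ofReal_mul]
    linarith [key g])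
  simp only [_root_.sub_apply, _root_.smul_apply, smul_eq_mul, Lt_apply, Complex.sub_re,
    Complex.re_ofReal_mul] at h1
  have h2 : (Q (μ * avg μ n)).re - (Q (avg μ n)).re ≤ ‖Q‖ * (2 / ((n : ℝ) + 1)) := by
    rw [← Complex.sub_re, ← map_sub, avg_comm]
    calc _ ≤ ‖Q (avg μ n * μ - avg μ n)‖ := Complex.re_le_norm _
      _ ≤ ‖Q‖ * ‖avg μ n * μ - avg μ n‖ := Q.le_opNorm _
      _ ≤ _ := mul_le_mul_of_nonneg_left (norm_avg_mul_sub hμ.nrm n) (norm_nonneg _)
  have h3 : c * (S (avg μ n)).re ≤ ‖Q‖ * (2 / ((n : ℝ) + 1)) := by linarith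
  have h4 : ‖Q‖ * 2 / c / ((n : ℝ) + 1) = (‖Q‖ * (2 / ((n : ℝ) + 1))) / c := by
    field_simp
  rw [h4, le_div_iff₀ hc, mul_comm]
  exact h3

end Pool.Agent.Y74.CI
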